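import Pool.Agent.H17.BO.TargetsE
import Pool.Agent.H17.VG.TargetsE
import Pool.Agent.H17.FR.Targets
import Pool.Agent.H27.LV.Targets2

/-! Row FU of the board bo_modules (MP_70ba79_ag): the fundamental identity. -/

set_option autoImplicit false

namespace Pool.Agent.H51.BO

open MvPolynomial SC Pool.Agent.H27.LV Pool.Agent.H17.VG Pool.Agent.H17.BO

theorem pf_FU (hOV : T_OV) (hTR1 : FR.T_TR1) (hRAT : T_RAT) : T_FU := by
  intro k K L _ _ _ _ _ _ _ _ _ _ _ htr v
  have hfin : Algebra.FiniteType K L := inferInstance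
  have hE2 : Algebra.EssFiniteType K L := inferInstance
  have hE3 : Algebra.EssFiniteType k L := Algebra.EssFiniteType.comp k K L
  have htrL : Algebra.trdeg k L = 1 := by
    have h1 : Algebra.trdeg k K + Algebra.trdeg K L = Algebra.trdeg k L := trdeg_add_eq k K
    rw [trdeg_eq_zero (R := K) (A := L), add_zero, htr] at h1
    exact h1.symm
  have hv : v.ord v.unif = 1 := v.ord_surj.choose_spec.2
  have hdv : v.deg = 1 := (hRAT k K htr v).1
  have hdw : ∀ w : DV k L, w.deg = 1 := fun w => (hRAT k L htrL w).1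
  have hiff : ∀ w : DV k L, (∃ e, Over v w e) ↔ ram v w ≠ 0 := by
    intro w
    constructor
    · rintro ⟨e, he⟩
      rw [(hOV k K L w).2.1 v e he]
      exact he.1.ne'
    · intro h
      unfold ram at h
      by_contra hcon
      rw [dif_neg hcon] at h
      exact h rfl
  have hset : {w : DV k L | ∃ e, Over v w e} = {w : DV k L | ram v w ≠ 0} := by
    ext w
    exact hiff w
  obtain ⟨h1, h2⟩ := hTR1 k K L v v.unif 1 (fun _ => 1) hv hdv (fun P _ => Or.inl (by simp))
  rw [hset] at h1
  refine ⟨h1, ?_⟩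
  have h3 : ∀ P : {P : DV k L // ∃ e, Over v P e},
      (P.1.deg : k) * (P.1.ord (algebraMap K L v.unif) : k) * 1 = ((ram v P.1 : ℕ) : k) := by
    rintro ⟨P, e, he⟩
    show (P.deg : k) * (P.ord (algebraMap K L v.unif) : k) * 1 = ((ram v P : ℕ) : k)
    rw [hdw P, he.2 v.unif, hv, (hOV k K L P).2.1 v e he]
    push_cast
    ring
  rw [finsum_congr h3] at h2
  have h4 : ∑ᶠ P : {P : DV k L // ∃ e, Over v P e}, ((ram v P.1 : ℕ) : k) =
      ((∑ᶠ P : DV k L, ram v P : ℕ) : k) := by
    have h5 := finsum_subtype_eq_finsum_cond (f := fun P : DV k L => ((ram v P : ℕ) : k))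
      (fun P : DV k L => ∃ e, Over v P e)
    rw [h5]
    have h6 := (Nat.castAddMonoidHom k).map_finsum (f := fun P : DV k L => ram v P) h1
    have h7 : ((∑ᶠ P : DV k L, ram v P : ℕ) : k) = ∑ᶠ P : DV k L, ((ram v P : ℕ) : k) := h6
    rw [h7]
    refine finsum_congr fun P => ?_
    by_cases hP : ∃ e, Over v P e
    · simp only [hP, finsum_true]
    · simp only [hP, finsum_false]
      have h8 : ram v P = 0 := by
        by_contra h9
        exact hP ((hiff P).2 h9)
      rw [h8, Nat.cast_zero]
  rw [h4] at h2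
  obtain ⟨N, hN⟩ : ∃ N : ℕ, N = ∑ᶠ P : DV k L, ram v P := ⟨_, rfl⟩
  rw [← hN] at h2 ⊢
  have hcK : CharZero K := charZero_of_injective_algebraMap (algebraMap k K).injective
  have htrace : Algebra.trace K L (1 : L) = ((Module.finrank K L : ℕ) : K) := by
    have h9 := Algebra.trace_algebraMap (R := K) (S := L) (1 : K)
    rw [map_one] at h9
    rw [h9, nsmul_eq_mul, mul_one]
  have key : ((Module.finrank K L : ℕ) : K) = ((N : ℕ) : K) := by
    rcases h2 with h | h
    · rw [htrace] at h
      rw [h, map_natCast]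
    · rw [htrace] at h
      exfalso
      have h9 : ((Module.finrank K L : ℕ) : K) - algebraMap k K ((N : ℕ) : k) =
          algebraMap k K (((Module.finrank K L : ℕ) : k) - ((N : ℕ) : k)) := by
        rw [map_sub, map_natCast, map_natCast]
      rw [h9, v.ord_base] at h
      exact lt_irrefl _ h
  exact_mod_cast key.symm

end Pool.Agent.H51.BO
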