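import Mathlib

open Set Matroid

namespace PoolH51.BO

/-- `Linked adj X Y`: in the digraph `adj` there are pairwise vertex-disjoint directed paths, one
starting at each element of `X`, whose end points form `Y`.  The path starting at `x ∈ X` is
`p x 0, p x 1, …, p x (len x)` (length zero allowed). -/
def Linked {τ : Type} (adj : τ → τ → Prop) (X Y : Set τ) : Prop :=
  ∃ (p : τ → ℕ → τ) (len : τ → ℕ),
    (∀ x ∈ X, p x 0 = x) ∧
    (∀ x ∈ X, ∀ i < len x, adj (p x i) (p x (i + 1))) ∧
    (∀ x ∈ X, ∀ y ∈ X, ∀ i ≤ len x, ∀ j ≤ len y, p x i = p y j → x = y ∧ i = j) ∧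
    (fun x => p x (len x)) '' X = Y

/-- Isomorphism of matroids. -/
def Iso {α β : Type} (M : Matroid α) (N : Matroid β) : Prop :=
  ∃ e : M.E ≃ N.E, ∀ I : Set M.E,
    M.Indep (Subtype.val '' I) ↔ N.Indep (Subtype.val '' (e '' I))

/-- A class of finite matroids is complete if it is closed under isomorphism, restriction,
contraction, duality, direct sum, truncation and induction. -/
structure IsComplete (C : (α : Type) → Matroid α → Prop) : Prop where
  finite : ∀ (α : Type) (M : Matroid α), C α M → M.E.Finite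
  iso : ∀ (α β : Type) (M : Matroid α) (N : Matroid β), C α M → Iso M N → C β N
  restrict : ∀ (α : Type) (M : Matroid α) (A : Set α), C α M → A ⊆ M.E → C α (M ↾ A)
  contract : ∀ (α : Type) (M : Matroid α) (A : Set α), C α M → A ⊆ M.E → C α (M ／ A)
  dual : ∀ (α : Type) (M : Matroid α), C α M → C α M✶
  sum : ∀ (α β : Type) (M : Matroid α) (N : Matroid β), C α M → C β N → C (α ⊕ β) (M.sum N)
  truncate : ∀ (α : Type) (M N : Matroid α) (k : ℕ), C α M → k ≤ M.eRank → N.E = M.E →
    (∀ X : Set α, N.Indep X ↔ M.Indep X ∧ X.ncard ≤ k) → C α N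
  induce : ∀ (τ : Type) [Finite τ] (adj : τ → τ → Prop) (M₀ N : Matroid τ) (A : Set τ), C τ M₀ →
    N.E = A → (∀ X : Set τ, N.Indep X ↔ X ⊆ A ∧ ∃ Y, M₀.Indep Y ∧ Linked adj X Y) → C τ N

/-- `N` belongs to the smallest complete class containing all the matroids `M i`. -/
def Generated {ι : Type} {α : ι → Type} (M : ∀ i, Matroid (α i)) {β : Type} (N : Matroid β) :
    Prop :=
  ∀ C : (α : Type) → Matroid α → Prop, IsComplete C → (∀ i, C (α i) (M i)) → C β N

/-- Strongly base-orderable matroids. -/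
def StronglyBaseOrderable {α : Type} (M : Matroid α) : Prop :=
  ∀ B₁ B₂, M.IsBase B₁ → M.IsBase B₂ → ∃ φ : α → α, BijOn φ B₁ B₂ ∧
    ∀ X ⊆ B₁, M.IsBase ((B₁ \ X) ∪ φ '' X)

/-- Base-orderable matroids: the condition is only required for the sets `X` with one element and
those with all but one element of `B₁`. -/
def BaseOrderable {α : Type} (M : Matroid α) : Prop :=
  ∀ B₁ B₂, M.IsBase B₁ → M.IsBase B₂ → ∃ φ : α → α, BijOn φ B₁ B₂ ∧
    ∀ X ⊆ B₁, (X.ncard = 1 ∨ X.ncard + 1 = B₁.ncard) → M.IsBase ((B₁ \ X) ∪ φ '' X)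

end PoolH51.BO
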