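import Mathlib

open Set

namespace PoolH51.BO

/-- A gate of arity at most `s`: an integer valued submodular set function depending on at most
`s` elements. -/
def IsGate (s : ℕ) {W : Type} (g : Set W → ℤ) : Prop :=
  (∀ A B, g (A ∪ B) + g (A ∩ B) ≤ g A + g B) ∧
    ∃ S : Finset W, S.card ≤ s ∧ ∀ A, g A = g (A ∩ ↑S)

/-- Finite sums of gates. -/
def IsSum (s : ℕ) {W : Type} (H : Set W → ℤ) : Prop :=
  H ∈ AddSubmonoid.closure {g : Set W → ℤ | IsGate s g}

/-- partial minimisation of a finite sum of gates -/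
def Expr (s : ℕ) {α : Type} (h : Set α → ℤ) : Prop :=
  ∃ (V : Type) (H : Set (α ⊕ V) → ℤ), IsSum s H ∧
    (∀ Z, h (Sum.inl ⁻¹' Z) ≤ H Z) ∧ ∀ X, ∃ Z, Sum.inl ⁻¹' Z = X ∧ H Z ≤ h X

/-- pull back of a set along a substitution of variables -/
def subst {W W' : Type} (κ : W → W' ⊕ Bool) (Z : Set W') : Set W :=
  {w | Sum.elim (fun w' => w' ∈ Z) (fun t => t = true) (κ w)}

variable {s : ℕ} {W W' α β : Type}

lemma subst_union (κ : W → W' ⊕ Bool) (A B : Set W') :
    subst κ (A ∪ B) = subst κ A ∪ subst κ B := by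
  ext w
  simp only [subst, mem_ofPred_eq, mem_union]
  cases κ w <;> simp

lemma subst_inter (κ : W → W' ⊕ Bool) (A B : Set W') :
    subst κ (A ∩ B) = subst κ A ∩ subst κ B := by
  ext w
  simp only [subst, mem_ofPred_eq, mem_inter_iff]
  cases κ w <;> simp

lemma IsGate.subst {g : Set W → ℤ} (hg : IsGate s g) (κ : W → W' ⊕ Bool) :
    IsGate s (fun Z => g (subst κ Z)) := by
  classical
  obtain ⟨h1, S, hS, h2⟩ := hg
  refine ⟨fun A B => ?_, ?_⟩
  · simp only [subst_union, subst_inter]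
    exact h1 _ _
  · -- the new support
    refine ⟨(S.image fun w => (κ w).getLeft?).biUnion fun o => o.toFinset, ?_, fun A => ?_⟩
    · refine Finset.card_biUnion_le.trans ?_
      refine (Finset.sum_le_card_nsmul _ _ 1 ?_).trans ?_
      · intro o _
        cases o <;> simp
      · simpa using (Finset.card_image_le).trans hS
    · show g _ = g _
      rw [h2 (PoolH51.BO.subst κ A), h2 (PoolH51.BO.subst κ _)]
      congr 1
      ext w
      simp only [PoolH51.BO.subst, mem_inter_iff, mem_ofPred_eq, Finset.mem_coe]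
      constructor
      · rintro ⟨h3, h4⟩
        refine ⟨?_, h4⟩
        cases hk : κ w with
        | inl w' =>
          rw [hk] at h3
          simp only [Sum.elim_inl] at h3
          simp only [Sum.elim_inl, mem_inter_iff, Finset.mem_coe, Finset.mem_biUnion,
            Finset.mem_image]
          exact ⟨h3, some w', ⟨w, h4, by rw [hk]; rfl⟩, by simp⟩
        | inr t =>
          rw [hk] at h3
          simpa using h3
      · rintro ⟨h3, h4⟩
        refine ⟨?_, h4⟩
        cases hk : κ w with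
        | inl w' =>
          rw [hk] at h3
          simp only [Sum.elim_inl, mem_inter_iff] at h3
          simpa using h3.1
        | inr t =>
          rw [hk] at h3
          simpa using h3

lemma IsSum.subst {g : Set W → ℤ} (hg : IsSum s g) (κ : W → W' ⊕ Bool) :
    IsSum s (fun Z => g (subst κ Z)) := by
  unfold IsSum at hg ⊢
  induction hg using AddSubmonoid.closure_induction with
  | mem x hx => exact AddSubmonoid.subset_closure (IsGate.subst hx κ)
  | zero => exact AddSubmonoid.zero_mem _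
  | add x y _ _ hx hy => exact AddSubmonoid.add_mem _ hx hy

lemma IsGate.isSum {g : Set W → ℤ} (hg : IsGate s g) : IsSum s g :=
  AddSubmonoid.subset_closure hg

lemma IsSum.add {g h : Set W → ℤ} (hg : IsSum s g) (hh : IsSum s h) :
    IsSum s (fun Z => g Z + h Z) := AddSubmonoid.add_mem _ hg hh

lemma IsSum.sum {ι : Type*} (I : Finset ι) {g : ι → Set W → ℤ} (hg : ∀ i ∈ I, IsSum s (g i)) :
    IsSum s (fun Z => ∑ i ∈ I, g i Z) := by
  have h := AddSubmonoid.sum_mem (AddSubmonoid.closure {g : Set W → ℤ | IsGate s g}) hg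
  have : (∑ i ∈ I, g i) = (fun Z => ∑ i ∈ I, g i Z) := by
    ext Z; simp
  rw [this] at h
  exact h

lemma IsGate.const (c : ℤ) : IsGate s (fun _ : Set W => c) :=
  ⟨fun _ _ => le_refl _, ∅, by simp, fun _ => rfl⟩

open Classical in
/-- unary gate -/
lemma IsGate.unary (hs : 1 ≤ s) (w : W) (c : ℤ) :
    IsGate s (fun Z : Set W => if w ∈ Z then c else 0) := by
  refine ⟨fun A B => ?_, {w}, by simpa using hs, fun A => by simp⟩
  by_cases h1 : w ∈ A <;> by_cases h2 : w ∈ B <;> simp [h1, h2]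

open Classical in
/-- binary gate `u ∧ ¬ v` -/
lemma IsGate.binary (hs : 2 ≤ s) (u v : W) :
    IsGate s (fun Z : Set W => if u ∈ Z ∧ v ∉ Z then 1 else 0) := by
  refine ⟨fun A B => ?_, {u, v}, (Finset.card_le_two).trans hs, fun A => by simp⟩
  by_cases h1 : u ∈ A <;> by_cases h2 : u ∈ B <;> by_cases h3 : v ∈ A <;> by_cases h4 : v ∈ B <;>
    simp [h1, h2, h3, h4]

lemma IsGate.compl {g : Set W → ℤ} (hg : IsGate s g) : IsGate s (fun Z => g Zᶜ) := by
  obtain ⟨h1, S, hS, h2⟩ := hg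
  refine ⟨fun A B => ?_, S, hS, fun A => ?_⟩
  · simp only [compl_union, compl_inter]
    have := h1 Aᶜ Bᶜ
    linarith
  · show g _ = g _
    rw [h2 Aᶜ, h2 (A ∩ ↑S)ᶜ]
    congr 1
    ext w
    simp only [mem_inter_iff, mem_compl_iff, Finset.mem_coe]
    tauto

lemma IsSum.compl {g : Set W → ℤ} (hg : IsSum s g) : IsSum s (fun Z => g Zᶜ) := by
  unfold IsSum at hg ⊢
  induction hg using AddSubmonoid.closure_induction with
  | mem x hx => exact AddSubmonoid.subset_closure (IsGate.compl hx)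
  | zero => exact AddSubmonoid.zero_mem _
  | add x y _ _ hx hy => exact AddSubmonoid.add_mem _ hx hy

/-! ### Closure properties of `Expr` -/

lemma IsSum.expr {g : Set α → ℤ} (hg : IsSum s g) : Expr s g := by
  refine ⟨Empty, fun Z => g (PoolH51.BO.subst (fun a => Sum.inl (Sum.inl a)) Z), hg.subst _,
    fun Z => le_of_eq ?_, fun X => ⟨Sum.inl '' X, ?_, le_of_eq ?_⟩⟩
  · congr 1
  · ext a; simp
  · show g _ = g _
    congr 1
    ext a; simp [PoolH51.BO.subst]

lemma Expr.subst {h : Set α → ℤ} (hh : Expr s h) (κ : α → β ⊕ Bool) :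
    Expr s (fun X => h (subst κ X)) := by
  obtain ⟨V, H, hH, h1, h2⟩ := hh
  refine ⟨V, fun Z => H (PoolH51.BO.subst
    (Sum.elim (fun a => (κ a).map Sum.inl id) (fun v => Sum.inl (Sum.inr v))) Z),
    hH.subst _, fun Z => ?_, fun X => ?_⟩
  · refine le_trans (le_of_eq ?_) (h1 _)
    show h _ = h _
    congr 1
    ext a
    simp only [PoolH51.BO.subst, mem_ofPred_eq, mem_preimage, Sum.elim_inl]
    cases κ a <;> simp
  · obtain ⟨Z, hZ, hZ'⟩ := h2 (PoolH51.BO.subst κ X)
    refine ⟨Sum.inl '' X ∪ Sum.inr '' (Sum.inr ⁻¹' Z), by ext; simp, ?_⟩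
    refine le_trans (le_of_eq ?_) hZ'
    show H _ = H _
    congr 1
    ext w
    rcases w with a | v
    · have h3 : Sum.inl a ∈ Z ↔ a ∈ PoolH51.BO.subst κ X := by rw [← hZ]; rfl
      rw [h3]
      simp only [PoolH51.BO.subst, mem_ofPred_eq, Sum.elim_inl]
      cases κ a <;> simp
    · simp [PoolH51.BO.subst]

lemma Expr.add {g h : Set α → ℤ} (hg : Expr s g) (hh : Expr s h) :
    Expr s (fun X => g X + h X) := by
  obtain ⟨V, G, hG, g1, g2⟩ := hg
  obtain ⟨V', H, hH, h1, h2⟩ := hh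
  refine ⟨V ⊕ V', fun Z => G (PoolH51.BO.subst (Sum.elim (fun a => Sum.inl (Sum.inl a))
      (fun v => Sum.inl (Sum.inr (Sum.inl v)))) Z) +
    H (PoolH51.BO.subst (Sum.elim (fun a => Sum.inl (Sum.inl a))
      (fun v => Sum.inl (Sum.inr (Sum.inr v)))) Z),
    (hG.subst _).add (hH.subst _), fun Z => ?_, fun X => ?_⟩
  · refine add_le_add (le_trans (le_of_eq ?_) (g1 _)) (le_trans (le_of_eq ?_) (h1 _))
    · congr 1
    · congr 1
  · obtain ⟨Z, hZ, hZ'⟩ := g2 X
    obtain ⟨Z', hY, hY'⟩ := h2 X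
    refine ⟨Sum.inl '' X ∪ Sum.inr '' (Sum.inl '' (Sum.inr ⁻¹' Z) ∪ Sum.inr '' (Sum.inr ⁻¹' Z')),
      by ext; simp, ?_⟩
    refine add_le_add (le_trans (le_of_eq ?_) hZ') (le_trans (le_of_eq ?_) hY')
    · congr 1
      ext w
      rcases w with a | v
      · have h3 : Sum.inl a ∈ Z ↔ a ∈ X := by rw [← hZ]; rfl
        rw [h3]
        simp [PoolH51.BO.subst]
      · simp [PoolH51.BO.subst]
    · congr 1
      ext w
      rcases w with a | v
      · have h3 : Sum.inl a ∈ Z' ↔ a ∈ X := by rw [← hY]; rfl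
        rw [h3]
        simp [PoolH51.BO.subst]
      · simp [PoolH51.BO.subst]

lemma Expr.const (c : ℤ) : Expr s (fun _ : Set α => c) := (IsGate.const c).isSum.expr

lemma Expr.compl {h : Set α → ℤ} (hh : Expr s h) : Expr s (fun X => h Xᶜ) := by
  obtain ⟨V, H, hH, h1, h2⟩ := hh
  refine ⟨V, fun Z => H Zᶜ, hH.compl, fun Z => ?_, fun X => ?_⟩
  · exact h1 Zᶜ
  · obtain ⟨Z, hZ, hZ'⟩ := h2 Xᶜ
    refine ⟨Zᶜ, by rw [preimage_compl, hZ, compl_compl], ?_⟩
    show H Zᶜᶜ ≤ _
    rwa [compl_compl]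

/-- partial minimisation -/
lemma Expr.min {V : Type} {h : Set (α ⊕ V) → ℤ} (hh : Expr s h) {k : Set α → ℤ}
    (h1 : ∀ Z, k (Sum.inl ⁻¹' Z) ≤ h Z) (h2 : ∀ X, ∃ Z, Sum.inl ⁻¹' Z = X ∧ h Z ≤ k X) :
    Expr s k := by
  obtain ⟨V', H, hH, h3, h4⟩ := hh
  refine ⟨V ⊕ V', fun Z => H (PoolH51.BO.subst (fun w => Sum.inl (Equiv.sumAssoc α V V' w)) Z),
    hH.subst _, fun Z => ?_, fun X => ?_⟩
  · refine le_trans ?_ (h3 _)
    refine le_trans (le_of_eq ?_) (h1 _)
    congr 1
  · obtain ⟨Z, hZ, hZ'⟩ := h2 X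
    obtain ⟨Y, hY, hY'⟩ := h4 Z
    refine ⟨(Equiv.sumAssoc α V V').symm ⁻¹' Y, ?_, ?_⟩
    · rw [← hZ, ← hY]
      ext a
      simp
    · refine le_trans (le_of_eq ?_) (hY'.trans hZ')
      show H _ = H _
      congr 1
      ext w
      simp [PoolH51.BO.subst]

end PoolH51.BO
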