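import Mathlib
import Pool.Agent.H51.BO.Defs
import Pool.Agent.H51.BO.Expr

open Set Matroid

namespace PoolH51.BO

variable {s : ℕ} {α β : Type}

/-- integer valued rank function -/
noncomputable def rk (M : Matroid α) (X : Set α) : ℤ := ((M.eRk X).toNat : ℤ)

/-- the invariant: rank function is expressible with gates of arity at most `s` -/
def Cls (s : ℕ) (α : Type) (M : Matroid α) : Prop := M.E.Finite ∧ Expr s (rk M)

lemma eRk_lt_top {M : Matroid α} (hM : M.E.Finite) (X : Set α) : M.eRk X < ⊤ := by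
  rw [← M.eRk_inter_ground]
  exact (M.eRk_le_encard _).trans_lt (encard_lt_top_iff.2 (hM.subset inter_subset_right))

lemma coe_rk {M : Matroid α} (hM : M.E.Finite) (X : Set α) :
    ((M.eRk X).toNat : ℕ∞) = M.eRk X := ENat.natCast_toNat (eRk_lt_top hM X).ne

lemma rk_le_iff {M : Matroid α} (hM : M.E.Finite) {X : Set α} {n : ℕ} :
    rk M X ≤ n ↔ ∀ I ⊆ X, M.Indep I → I.ncard ≤ n := by
  unfold rk
  rw [Nat.cast_le, ← Nat.cast_le (α := ℕ∞), coe_rk hM, eRk_le_iff]
  constructor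
  · intro h I hI hI'
    have := h hI hI'
    rwa [← (hM.subset hI'.subset_ground).cast_ncard_eq, Nat.cast_le] at this
  · intro h I hI hI'
    have := h I hI hI'
    rwa [← (hM.subset hI'.subset_ground).cast_ncard_eq, Nat.cast_le]

lemma le_rk_iff {M : Matroid α} (hM : M.E.Finite) {X : Set α} {n : ℕ} :
    (n : ℤ) ≤ rk M X ↔ ∃ I ⊆ X, M.Indep I ∧ I.ncard = n := by
  unfold rk
  rw [Nat.cast_le, ← Nat.cast_le (α := ℕ∞), coe_rk hM, le_eRk_iff]
  constructor
  · rintro ⟨I, h1, h2, h3⟩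
    refine ⟨I, h1, h2, ?_⟩
    rw [← (hM.subset h2.subset_ground).cast_ncard_eq] at h3
    exact_mod_cast h3
  · rintro ⟨I, h1, h2, h3⟩
    refine ⟨I, h1, h2, ?_⟩
    rw [← (hM.subset h2.subset_ground).cast_ncard_eq]
    exact_mod_cast h3

lemma rk_nonneg (M : Matroid α) (X : Set α) : 0 ≤ rk M X := Int.natCast_nonneg _

lemma rk_mono {M : Matroid α} (hM : M.E.Finite) {X Y : Set α} (h : X ⊆ Y) : rk M X ≤ rk M Y := by
  unfold rk
  rw [Nat.cast_le, ← Nat.cast_le (α := ℕ∞), coe_rk hM, coe_rk hM]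
  exact M.eRk_mono h

lemma rk_submod {M : Matroid α} (hM : M.E.Finite) (X Y : Set α) :
    rk M (X ∪ Y) + rk M (X ∩ Y) ≤ rk M X + rk M Y := by
  unfold rk
  rw [← Nat.cast_add, ← Nat.cast_add, Nat.cast_le, ← Nat.cast_le (α := ℕ∞), Nat.cast_add,
    Nat.cast_add, coe_rk hM, coe_rk hM, coe_rk hM, coe_rk hM, add_comm (M.eRk (X ∪ Y))]
  exact M.eRk_inter_add_eRk_union_le X Y

lemma rk_inter_ground (M : Matroid α) (X : Set α) : rk M (X ∩ M.E) = rk M X := by
  unfold rk
  rw [M.eRk_inter_ground]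

/-- small matroids are in the class -/
lemma Cls.small {M : Matroid α} (hM : M.E.Finite) (h : M.E.ncard ≤ s) : Cls s α M := by
  refine ⟨hM, IsSum.expr (IsGate.isSum ⟨rk_submod hM, hM.toFinset, ?_, fun A => ?_⟩)⟩
  · rwa [← ncard_eq_toFinset_card M.E hM]
  · rw [hM.coe_toFinset, rk_inter_ground]

lemma Cls.restrict {M : Matroid α} (h : Cls s α M) {A : Set α} (hA : A ⊆ M.E) :
    Cls s α (M ↾ A) := by
  classical
  refine ⟨h.1.subset hA, ?_⟩
  have h2 := h.2.subst (fun a => if a ∈ A then Sum.inl a else Sum.inr false)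
  convert h2 using 1
  ext X
  unfold rk
  rw [restrict_eRk_eq']
  congr 3
  ext a
  by_cases ha : a ∈ A <;> simp [subst, ha]

open Classical in
lemma expr_card (hs : 1 ≤ s) {E : Set α} (hE : E.Finite) :
    Expr s (fun X : Set α => ((X ∩ E).ncard : ℤ)) := by
  have h : IsSum s (fun X : Set α => ∑ e ∈ hE.toFinset, (if e ∈ X then (1 : ℤ) else 0)) :=
    IsSum.sum _ fun e _ => (IsGate.unary hs e 1).isSum
  convert h.expr using 1
  ext X
  rw [Finset.sum_boole, ncard_eq_toFinset_card _ (hE.subset inter_subset_right)]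
  congr 2
  ext a
  simp [and_comm]

lemma Cls.dual (hs : 1 ≤ s) {M : Matroid α} (h : Cls s α M) : Cls s α M✶ := by
  refine ⟨h.1, ?_⟩
  have h2 := ((expr_card hs h.1).add h.2.compl).add (Expr.const (-rk M M.E))
  convert h2 using 1
  ext X
  have h3 := M.eRk_dual_add_eRank (X ∩ M.E) inter_subset_right
  have h4 : M✶.eRk (X ∩ M.E) = M✶.eRk X := by
    rw [← dual_ground (M := M), M✶.eRk_inter_ground]
  have h5 : M.E \ (X ∩ M.E) = Xᶜ ∩ M.E := by
    ext a; simp; tauto
  rw [h4, h5, M.eRk_inter_ground, eRank_def, ← (h.1.subset inter_subset_right).cast_ncard_eq,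
    ← coe_rk h.1 Xᶜ, ← coe_rk h.1 M.E, ← coe_rk (M := M✶) h.1 X] at h3
  have h6 : rk M✶ X + rk M M.E = rk M Xᶜ + ((X ∩ M.E).ncard : ℤ) := by
    unfold rk
    exact_mod_cast h3
  show rk M✶ X = ((X ∩ M.E).ncard : ℤ) + rk M Xᶜ + (-rk M M.E)
  linarith

lemma Cls.contract (hs : 1 ≤ s) {M : Matroid α} (h : Cls s α M) (A : Set α) :
    Cls s α (M ／ A) := by
  have h1 : M ／ A = (M✶ ↾ (M.E \ A))✶ := rfl
  rw [h1]
  exact ((h.dual hs).restrict sdiff_subset).dual hs

lemma rk_sum {M : Matroid α} {N : Matroid β} (hM : M.E.Finite) (hN : N.E.Finite)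
    (X : Set (α ⊕ β)) : rk (M.sum N) X = rk M (Sum.inl ⁻¹' X) + rk N (Sum.inr ⁻¹' X) := by
  have hMN : (M.sum N).E.Finite := by
    rw [sum_ground]
    exact (hM.image _).union (hN.image _)
  apply le_antisymm
  · have : rk M (Sum.inl ⁻¹' X) + rk N (Sum.inr ⁻¹' X) =
      (((M.eRk (Sum.inl ⁻¹' X)).toNat + (N.eRk (Sum.inr ⁻¹' X)).toNat : ℕ) : ℤ) := by
      unfold rk; push_cast; rfl
    rw [this, rk_le_iff hMN]
    intro I hI hI'
    rw [sum_indep_iff] at hI'
    have h1 := (rk_le_iff hM (X := Sum.inl ⁻¹' X) (n := (M.eRk (Sum.inl ⁻¹' X)).toNat)).1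
      le_rfl _ (preimage_mono hI) hI'.1
    have h2 := (rk_le_iff hN (X := Sum.inr ⁻¹' X) (n := (N.eRk (Sum.inr ⁻¹' X)).toNat)).1
      le_rfl _ (preimage_mono hI) hI'.2
    have h3 : I = Sum.inl '' (Sum.inl ⁻¹' I) ∪ Sum.inr '' (Sum.inr ⁻¹' I) := by
      ext a; cases a <;> simp
    have h4 : I.ncard ≤ (Sum.inl ⁻¹' I : Set α).ncard + (Sum.inr ⁻¹' I : Set β).ncard := by
      conv_lhs => rw [h3]
      refine (ncard_union_le _ _).trans ?_
      rw [ncard_image_of_injective _ Sum.inl_injective, ncard_image_of_injective _ Sum.inr_injective]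
    omega
  · obtain ⟨I, hI, hI1, hI2⟩ := (le_rk_iff hM (X := Sum.inl ⁻¹' X)
      (n := (M.eRk (Sum.inl ⁻¹' X)).toNat)).1 le_rfl
    obtain ⟨J, hJ, hJ1, hJ2⟩ := (le_rk_iff hN (X := Sum.inr ⁻¹' X)
      (n := (N.eRk (Sum.inr ⁻¹' X)).toNat)).1 le_rfl
    have : rk M (Sum.inl ⁻¹' X) + rk N (Sum.inr ⁻¹' X) =
      (((M.eRk (Sum.inl ⁻¹' X)).toNat + (N.eRk (Sum.inr ⁻¹' X)).toNat : ℕ) : ℤ) := by
      unfold rk; push_cast; rfl
    rw [this, le_rk_iff hMN]
    refine ⟨Sum.inl '' I ∪ Sum.inr '' J, ?_, ?_, ?_⟩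
    · rintro a (⟨b, hb, rfl⟩ | ⟨b, hb, rfl⟩)
      · exact hI hb
      · exact hJ hb
    · rw [sum_indep_iff]
      constructor
      · convert hI1
        ext a; simp
      · convert hJ1
        ext a; simp
    · have hd : Disjoint (Sum.inl '' I : Set (α ⊕ β)) (Sum.inr '' J) := by
        rw [Set.disjoint_left]
        rintro a ⟨b, _, rfl⟩ ⟨c, _, h⟩
        cases h
      rw [ncard_union_eq hd ((hM.subset hI1.subset_ground).image _)
        ((hN.subset hJ1.subset_ground).image _), ncard_image_of_injective _ Sum.inl_injective,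
        ncard_image_of_injective _ Sum.inr_injective, hI2, hJ2]

lemma Cls.sum {M : Matroid α} {N : Matroid β} (hM : Cls s α M) (hN : Cls s β N) :
    Cls s (α ⊕ β) (M.sum N) := by
  refine ⟨?_, ?_⟩
  · rw [sum_ground]
    exact (hM.1.image _).union (hN.1.image _)
  · have h := (hM.2.subst (fun a => (Sum.inl (Sum.inl a) : (α ⊕ β) ⊕ Bool))).add
      (hN.2.subst (fun a => (Sum.inl (Sum.inr a) : (α ⊕ β) ⊕ Bool)))
    convert h using 1
    ext X
    rw [rk_sum hM.1 hN.1]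
    rfl

lemma Cls.iso {M : Matroid α} {N : Matroid β} (hM : Cls s α M) (h : Iso M N) : Cls s β N := by
  classical
  obtain ⟨e, he⟩ := h
  have hN : N.E.Finite := by
    have := hM.1.to_subtype
    have : Finite N.E := Finite.of_equiv _ e
    exact toFinite _
  refine ⟨hN, ?_⟩
  have h2 := hM.2.subst (fun a => if h : a ∈ M.E then Sum.inl ((e ⟨a, h⟩ : N.E) : β)
    else Sum.inr false)
  convert h2 using 1
  ext X
  have key : ∀ I : Set M.E, (Subtype.val '' (e '' I) : Set β).ncard =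
      (Subtype.val '' I : Set α).ncard := by
    intro I
    rw [ncard_image_of_injective _ Subtype.val_injective,
      ncard_image_of_injective _ Subtype.val_injective, ncard_image_of_injective _ e.injective]
  have key2 : ∀ I : Set M.E, Subtype.val '' (e '' I) ⊆ X ↔ Subtype.val '' I ⊆
      subst (fun a => if h : a ∈ M.E then Sum.inl ((e ⟨a, h⟩ : N.E) : β) else Sum.inr false) X := by
    intro I
    constructor
    · rintro h _ ⟨⟨a, ha⟩, h1, rfl⟩
      simp only [subst, mem_ofPred_eq, ha, dif_pos, Sum.elim_inl]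
      exact h ⟨_, ⟨_, h1, rfl⟩, rfl⟩
    · rintro h _ ⟨_, ⟨⟨a, ha⟩, h1, rfl⟩, rfl⟩
      have := h ⟨_, h1, rfl⟩
      simpa only [subst, mem_ofPred_eq, ha, dif_pos, Sum.elim_inl] using this
  apply le_antisymm
  · unfold rk
    rw [← rk, ← rk]
    rw [show rk M (subst (fun a => if h : a ∈ M.E then Sum.inl ((e ⟨a, h⟩ : N.E) : β)
      else Sum.inr false) X) = (((M.eRk (subst (fun a => if h : a ∈ M.E then
      Sum.inl ((e ⟨a, h⟩ : N.E) : β) else Sum.inr false) X)).toNat : ℕ) : ℤ) from rfl,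
      rk_le_iff hN]
    intro I hI hI'
    obtain ⟨J, rfl⟩ : ∃ J : Set M.E, I = Subtype.val '' (e '' J) := by
      refine ⟨e.symm '' (Subtype.val ⁻¹' I), ?_⟩
      rw [Equiv.image_symm_image, Subtype.image_preimage_val,
        inter_eq_self_of_subset_right hI'.subset_ground]
    rw [key]
    exact (rk_le_iff hM.1).1 le_rfl _ ((key2 J).1 hI) ((he J).2 hI')
  · rw [show rk N X = ((N.eRk X).toNat : ℤ) from rfl]
    show rk M _ ≤ _
    rw [rk_le_iff hM.1]
    intro I hI hI'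
    obtain ⟨J, rfl⟩ : ∃ J : Set M.E, I = Subtype.val '' J := by
      refine ⟨(Subtype.val ⁻¹' I), ?_⟩
      simp [inter_eq_self_of_subset_right hI'.subset_ground]
    rw [← key]
    exact (rk_le_iff hN).1 le_rfl _ ((key2 J).2 hI) ((he J).1 hI')

end PoolH51.BO
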