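import Mathlib
import Pool.Agent.H51.BO.Rank

open Set Matroid

namespace PoolH51.BO

/-- Rado's selection theorem for a monotone submodular function. -/
lemma rado {ι V : Type} [Fintype ι] [DecidableEq V] [DecidableEq ι] (μ : Finset V → ℤ)
    (h0 : μ ∅ ≤ 0) (mono : ∀ A B, A ⊆ B → μ A ≤ μ B)
    (sub : ∀ A B, μ (A ∪ B) + μ (A ∩ B) ≤ μ A + μ B) :
    ∀ (n : ℕ) (A : ι → Finset V), (∑ i, (A i).card) = n →
    (∀ J : Finset ι, (J.card : ℤ) ≤ μ (J.biUnion A)) →
    ∃ v : ι → V, (∀ i, v i ∈ A i) ∧ ∀ J : Finset ι, (J.card : ℤ) ≤ μ (J.image v) := by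
  intro n
  induction n using Nat.strong_induction_on with
  | _ n ih =>
    intro A hn hA
    have hne : ∀ i, (A i).Nonempty := by
      intro i
      rw [Finset.nonempty_iff_ne_empty]
      intro h
      have := hA {i}
      simp [h] at this
      omega
    by_cases h1 : ∀ i, (A i).card = 1
    · have h2 : ∀ i, ∃ a, A i = {a} := fun i => Finset.card_eq_one.1 (h1 i)
      choose v hv using h2
      refine ⟨v, fun i => by rw [hv i]; simp, fun J => ?_⟩
      have h3 : J.biUnion A = J.image v := by
        ext a
        simp [hv, eq_comm]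
      rw [← h3]
      exact hA J
    · push Not at h1
      obtain ⟨i, hi⟩ := h1
      have h2 : 1 < (A i).card := by
        have := (hne i).card_pos
        omega
      obtain ⟨a, ha, b, hb, hab⟩ := Finset.one_lt_card.1 h2
      -- removing `c` from `A i`
      have step : ∀ c ∈ A i, (∀ J : Finset ι,
          (J.card : ℤ) ≤ μ (J.biUnion (Function.update A i ((A i).erase c)))) →
          ∃ v : ι → V, (∀ i, v i ∈ A i) ∧ ∀ J : Finset ι, (J.card : ℤ) ≤ μ (J.image v) := by
        intro c hc hJ
        have hlt : ∑ j, (Function.update A i ((A i).erase c) j).card < n := by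
          rw [← hn]
          apply Finset.sum_lt_sum
          · intro j _
            by_cases hj : j = i
            · subst hj
              simp [Finset.card_erase_of_mem hc]
            · simp [hj]
          · refine ⟨i, Finset.mem_univ _, ?_⟩
            simp only [Function.update_self]
            exact Finset.card_erase_lt_of_mem hc
        obtain ⟨v, hv, hv'⟩ := ih _ hlt _ rfl hJ
        refine ⟨v, fun j => ?_, hv'⟩
        have := hv j
        by_cases hj : j = i
        · subst hj
          simp only [Function.update_self, Finset.mem_erase] at this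
          exact this.2
        · simpa [hj] using this
      by_contra hcon
      have fail : ∀ c ∈ A i, ∃ K : Finset ι,
          μ (K.biUnion A ∪ (A i).erase c) ≤ K.card ∧ i ∉ K := by
        intro c hc
        have : ¬ ∀ J : Finset ι,
          (J.card : ℤ) ≤ μ (J.biUnion (Function.update A i ((A i).erase c))) :=
          fun h => hcon (step c hc h)
        push Not at this
        obtain ⟨J, hJ⟩ := this
        have hiJ : i ∈ J := by
          by_contra hiJ
          have : J.biUnion (Function.update A i ((A i).erase c)) = J.biUnion A := by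
            apply Finset.biUnion_congr rfl
            intro j hj
            have : j ≠ i := fun h => hiJ (h ▸ hj)
            simp [this]
          rw [this] at hJ
          exact absurd (hA J) (by linarith)
        refine ⟨J.erase i, ?_, by simp⟩
        have h4 : J.biUnion (Function.update A i ((A i).erase c)) =
            (J.erase i).biUnion A ∪ (A i).erase c := by
          ext x
          simp only [Finset.mem_biUnion, Finset.mem_union, Finset.mem_erase]
          constructor
          · rintro ⟨j, hj, hx⟩
            by_cases hji : j = i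
            · subst hji
              right
              simpa using hx
            · left
              exact ⟨j, ⟨hji, hj⟩, by simpa [hji] using hx⟩
          · rintro (⟨j, ⟨hji, hj⟩, hx⟩ | hx)
            · exact ⟨j, hj, by simpa [hji] using hx⟩
            · exact ⟨i, hiJ, by simpa using hx⟩
        rw [h4] at hJ
        have h5 : ((J.erase i).card : ℤ) + 1 = J.card := by
          exact_mod_cast Finset.card_erase_add_one hiJ
        linarith
      obtain ⟨Ka, hKa, hiKa⟩ := fail a ha
      obtain ⟨Kb, hKb, hiKb⟩ := fail b hb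
      have h6 := sub (Ka.biUnion A ∪ (A i).erase a) (Kb.biUnion A ∪ (A i).erase b)
      have h7 : (Ka.biUnion A ∪ (A i).erase a) ∪ (Kb.biUnion A ∪ (A i).erase b) =
          (insert i (Ka ∪ Kb)).biUnion A := by
        ext x
        simp only [Finset.mem_union, Finset.mem_biUnion, Finset.mem_erase, Finset.mem_insert]
        constructor
        · rintro ((⟨j, hj, hx⟩ | ⟨_, hx⟩) | (⟨j, hj, hx⟩ | ⟨_, hx⟩))
          · exact ⟨j, Or.inr (Or.inl hj), hx⟩
          · exact ⟨i, Or.inl rfl, hx⟩
          · exact ⟨j, Or.inr (Or.inr hj), hx⟩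
          · exact ⟨i, Or.inl rfl, hx⟩
        · rintro ⟨j, (rfl | hj | hj), hx⟩
          · by_cases hxa : x = a
            · right; right
              exact ⟨by rw [hxa]; exact hab, hx⟩
            · left; right
              exact ⟨hxa, hx⟩
          · left; left
            exact ⟨j, hj, hx⟩
          · right; left
            exact ⟨j, hj, hx⟩
      have h8 : (Ka ∩ Kb).biUnion A ⊆
          (Ka.biUnion A ∪ (A i).erase a) ∩ (Kb.biUnion A ∪ (A i).erase b) := by
        intro x
        simp only [Finset.mem_inter, Finset.mem_union, Finset.mem_biUnion]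
        rintro ⟨j, ⟨hj1, hj2⟩, hx⟩
        exact ⟨Or.inl ⟨j, hj1, hx⟩, Or.inl ⟨j, hj2, hx⟩⟩
      rw [h7] at h6
      have h9 := mono _ _ h8
      have h10 := hA (insert i (Ka ∪ Kb))
      have h11 := hA (Ka ∩ Kb)
      rw [Finset.card_insert_of_notMem (by simp [hiKa, hiKb])] at h10
      have h12 : ((Ka ∪ Kb).card : ℤ) + (Ka ∩ Kb).card = Ka.card + Kb.card := by
        exact_mod_cast Finset.card_union_add_card_inter Ka Kb
      push_cast at h10
      linarith

/-- out-neighbourhood -/
def nb {τ : Type} (adj : τ → τ → Prop) (Q : Set τ) : Set τ := {w | ∃ u ∈ Q, adj u w}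

/-- easy direction of the linking theorem -/
lemma link_le {τ : Type} [Finite τ] {adj : τ → τ → Prop} {M₀ : Matroid τ} {X X' Y Q : Set τ}
    (hX : X' ⊆ X) (hY : M₀.Indep Y) (hL : Linked adj X' Y) :
    (X'.ncard : ℤ) ≤ rk M₀ Q + ((X ∪ nb adj Q) \ Q).ncard := by
  classical
  obtain ⟨p, len, h0, hadj, hinj, hend⟩ := hL
  set X₁ : Set τ := {x ∈ X' | ∀ i ≤ len x, p x i ∈ Q} with hX₁
  set X₂ : Set τ := {x ∈ X' | ∃ i ≤ len x, p x i ∉ Q} with hX₂
  have hX12 : X' = X₁ ∪ X₂ := by
    ext x
    simp only [hX₁, hX₂, mem_union, mem_ofPred_eq]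
    constructor
    · intro h
      by_cases h' : ∀ i ≤ len x, p x i ∈ Q
      · exact Or.inl ⟨h, h'⟩
      · push Not at h'
        exact Or.inr ⟨h, h'⟩
    · rintro (h | h) <;> exact h.1
  have h1 : (X₁.ncard : ℤ) ≤ rk M₀ Q := by
    rw [le_rk_iff (toFinite _)]
    refine ⟨(fun x => p x (len x)) '' X₁, ?_, hY.subset ?_, ?_⟩
    · rintro _ ⟨x, hx, rfl⟩
      exact hx.2 _ le_rfl
    · rw [← hend]
      exact image_mono fun x hx => hx.1
    · apply InjOn.ncard_image
      intro x hx y hy hxy
      exact (hinj x hx.1 y hy.1 _ le_rfl _ le_rfl hxy).1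
  have h2 : X₂.ncard ≤ ((X ∪ nb adj Q) \ Q).ncard := by
    have hex : ∀ x, x ∈ X₂ → ∃ i, i ≤ len x ∧ p x i ∉ Q := fun x hx => hx.2
    let f : τ → ℕ := fun x => if h : ∃ i, i ≤ len x ∧ p x i ∉ Q then Nat.find h else 0
    have hf : ∀ x ∈ X₂, f x ≤ len x ∧ p x (f x) ∉ Q ∧ ∀ j < f x, p x j ∈ Q := by
      intro x hx
      have h := hex x hx
      have hfx : f x = Nat.find h := by simp only [f]; rw [dif_pos h]
      have h3 := Nat.find_spec h
      rw [hfx]
      refine ⟨h3.1, h3.2, fun j hj => ?_⟩
      have h4 := Nat.find_min h hj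
      by_contra h5
      exact h4 ⟨hj.le.trans h3.1, h5⟩
    refine ncard_le_ncard_of_injOn (fun x => p x (f x)) ?_ ?_ (toFinite _)
    · intro x hx
      obtain ⟨h3, h4, h5⟩ := hf x hx
      refine ⟨?_, h4⟩
      rcases Nat.eq_zero_or_pos (f x) with h6 | h6
      · left
        rw [h6, h0 x hx.1]
        exact hX hx.1
      · right
        obtain ⟨j, hj⟩ : ∃ j, f x = j + 1 := ⟨f x - 1, by omega⟩
        refine ⟨p x j, h5 j (by omega), ?_⟩
        show adj (p x j) (p x (f x))
        rw [hj]
        exact hadj x hx.1 j (by omega)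
    · intro x hx y hy hxy
      exact (hinj x hx.1 y hy.1 _ (hf x hx).1 _ (hf y hy).1 hxy).1
  have h3 : X'.ncard ≤ X₁.ncard + X₂.ncard := by
    rw [hX12]
    exact ncard_union_le _ _
  have h4 : (X'.ncard : ℤ) ≤ X₁.ncard + X₂.ncard := by exact_mod_cast h3
  have h5 : (X₂.ncard : ℤ) ≤ ((X ∪ nb adj Q) \ Q).ncard := by exact_mod_cast h2
  linarith

lemma rk_le_add {α : Type} {M : Matroid α} (hM : M.E.Finite) {X Y Z : Set α} (hZ : Z.Finite)
    (h : Y ⊆ X ∪ Z) : rk M Y ≤ rk M X + Z.ncard := by
  have h1 := M.eRk_union_le_eRk_add_encard X Z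
  have h2 := (M.eRk_mono h).trans h1
  rw [← hZ.cast_ncard_eq, ← coe_rk hM Y, ← coe_rk hM X] at h2
  unfold rk
  exact_mod_cast h2

/-- hard direction of the linking theorem -/
lemma link_exists {τ : Type} [Finite τ] {adj : τ → τ → Prop} {M₀ : Matroid τ} {X : Set τ} {m : ℕ}
    (hm : ∀ Q : Set τ, (m : ℤ) ≤ rk M₀ Q + ((X ∪ nb adj Q) \ Q).ncard) :
    ∃ X' ⊆ X, X'.ncard = m ∧ ∃ Y, M₀.Indep Y ∧ Linked adj X' Y := by
  classical
  have := Fintype.ofFinite τ
  have hE : M₀.E.Finite := toFinite _
  -- the submodular function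
  let co : Finset (τ ⊕ Fin m) → Set τ := fun Z => {u | Sum.inl u ∉ Z}
  let μ : Finset (τ ⊕ Fin m) → ℤ := fun Z => Z.card - m + min (m : ℤ) (rk M₀ (co Z))
  have hmono : ∀ A B, A ⊆ B → μ A ≤ μ B := by
    intro A B hAB
    have h1 : co A ⊆ co B ∪ {u | Sum.inl u ∈ B \ A} := by
      intro u hu
      by_cases hB : Sum.inl u ∈ B
      · right
        simp only [mem_ofPred_eq, Finset.mem_sdiff]
        exact ⟨hB, hu⟩
      · left
        exact hB
    have h2 := rk_le_add hE (toFinite _) h1
    have h3 : ({u | Sum.inl u ∈ B \ A} : Set τ).ncard ≤ (B \ A).card := by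
      rw [← ncard_coe_finset]
      refine ncard_le_ncard_of_injOn Sum.inl ?_ ?_ (toFinite _)
      · intro u hu
        simpa using hu
      · intro u _ v _ h
        exact Sum.inl_injective h
    have h4 : ((B \ A).card : ℤ) = B.card - A.card := by
      rw [Finset.card_sdiff_of_subset hAB]
      have := Finset.card_le_card hAB
      omega
    have h5 : (({u | Sum.inl u ∈ B \ A} : Set τ).ncard : ℤ) ≤ (B \ A).card := by exact_mod_cast h3
    show (A.card : ℤ) - m + min (m : ℤ) (rk M₀ (co A)) ≤ B.card - m + min (m : ℤ) (rk M₀ (co B))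
    omega
  have hsub : ∀ A B, μ (A ∪ B) + μ (A ∩ B) ≤ μ A + μ B := by
    intro A B
    have h1 : co (A ∪ B) = co A ∩ co B := by
      ext u; simp [co]
    have h2 : co (A ∩ B) = co A ∪ co B := by
      ext u; simp [co]; tauto
    have h3 := rk_submod hE (co A) (co B)
    have h4 : ((A ∪ B).card : ℤ) + (A ∩ B).card = A.card + B.card := by
      exact_mod_cast Finset.card_union_add_card_inter A B
    have h5 := rk_mono hE (subset_union_left : co A ⊆ co A ∪ co B)
    have h6 := rk_mono hE (subset_union_right : co B ⊆ co A ∪ co B)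
    have h7 := rk_mono hE (inter_subset_left : co A ∩ co B ⊆ co A)
    have h8 := rk_mono hE (inter_subset_right : co A ∩ co B ⊆ co B)
    show ((A ∪ B).card : ℤ) - m + min (m : ℤ) (rk M₀ (co (A ∪ B))) +
      (((A ∩ B).card : ℤ) - m + min (m : ℤ) (rk M₀ (co (A ∩ B)))) ≤
      (A.card : ℤ) - m + min (m : ℤ) (rk M₀ (co A)) +
      ((B.card : ℤ) - m + min (m : ℤ) (rk M₀ (co B)))
    rw [h1, h2]
    omega
  have h0 : μ ∅ ≤ 0 := by
    show ((∅ : Finset (τ ⊕ Fin m)).card : ℤ) - m + min (m : ℤ) (rk M₀ (co ∅)) ≤ 0
    simp only [Finset.card_empty]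
    omega
  -- the sets
  let A : τ → Finset (τ ⊕ Fin m) := fun w => Finset.univ.filter fun z =>
    z = Sum.inl w ∨ (∃ u, z = Sum.inl u ∧ adj u w) ∨ (∃ t, z = Sum.inr t ∧ w ∈ X)
  have hA : ∀ J : Finset τ, (J.card : ℤ) ≤ μ (J.biUnion A) := by
    intro J
    show (J.card : ℤ) ≤ ((J.biUnion A).card : ℤ) - m + min (m : ℤ) (rk M₀ (co (J.biUnion A)))
    by_cases hJ : ∃ w ∈ J, w ∈ X
    · obtain ⟨w, hw, hwX⟩ := hJ
      have h1 : J.map ⟨Sum.inl, Sum.inl_injective⟩ ∪ Finset.univ.map ⟨Sum.inr, Sum.inr_injective⟩ ⊆
          J.biUnion A := by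
        intro z hz
        simp only [Finset.mem_union, Finset.mem_map, Function.Embedding.coeFn_mk,
          Finset.mem_univ, true_and] at hz
        rw [Finset.mem_biUnion]
        rcases hz with ⟨u, hu, rfl⟩ | ⟨t, rfl⟩
        · exact ⟨u, hu, by simp [A]⟩
        · exact ⟨w, hw, by simp [A, hwX]⟩
      have h2 := Finset.card_le_card h1
      rw [Finset.card_union_of_disjoint, Finset.card_map, Finset.card_map, Finset.card_univ,
        Fintype.card_fin] at h2
      · have h3 := rk_nonneg M₀ (co (J.biUnion A))
        omega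
      · rw [Finset.disjoint_left]
        intro z hz hz'
        simp only [Finset.mem_map, Function.Embedding.coeFn_mk] at hz hz'
        obtain ⟨u, _, rfl⟩ := hz
        obtain ⟨t, _, h⟩ := hz'
        cases h
    · push Not at hJ
      set Q := co (J.biUnion A) with hQ
      have h1 : ((X ∪ nb adj Q) \ Q) ⊆ Qᶜ \ (J : Set τ) := by
        rintro w ⟨hw, hwQ⟩
        refine ⟨hwQ, fun hwJ => ?_⟩
        rcases hw with hw | ⟨u, hu, huw⟩
        · exact hJ w hwJ hw
        · apply hu
          rw [Finset.mem_biUnion]
          exact ⟨w, hwJ, by simp [A, huw]⟩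
      have h2 : (J : Set τ) ⊆ Qᶜ := by
        intro w hw hwQ
        apply hwQ
        rw [Finset.mem_biUnion]
        exact ⟨w, hw, by simp [A]⟩
      have h3 := ncard_le_ncard h1 (toFinite _)
      rw [ncard_sdiff h2 (toFinite _), ncard_coe_finset] at h3
      have h4 : Qᶜ.ncard ≤ (J.biUnion A).card := by
        rw [← ncard_coe_finset]
        refine ncard_le_ncard_of_injOn Sum.inl ?_ ?_ (toFinite _)
        · intro u hu
          by_contra h
          exact hu h
        · intro u _ v _ h
          exact Sum.inl_injective h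
      have h5 : J.card ≤ Qᶜ.ncard := by
        rw [← ncard_coe_finset J]
        exact ncard_le_ncard h2 (toFinite _)
      have h6 := hm Q
      omega
  obtain ⟨v, hv, hv'⟩ := rado μ h0 hmono hsub _ A rfl hA
  -- consequences of the selection
  set L : Finset (τ ⊕ Fin m) := Finset.univ.image v with hL
  have hLcard : L.card ≤ Fintype.card τ := by
    rw [hL]
    exact Finset.card_image_le.trans (by simp)
  have hmain : ((Fintype.card τ : ℕ) : ℤ) ≤ (L.card : ℤ) - m + min (m : ℤ) (rk M₀ (co L)) := by
    have := hv' Finset.univ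
    rw [Finset.card_univ] at this
    exact this
  have hinj : Function.Injective v := by
    have h1 : L.card = (Finset.univ : Finset τ).card := by
      rw [Finset.card_univ]
      omega
    have h2 := Finset.card_image_iff.1 h1
    intro a b hab
    exact h2 (by simp) (by simp) hab
  have hrk : (m : ℤ) ≤ rk M₀ (co L) := by omega
  have hLcard' : L.card = Fintype.card τ := by omega
  -- the number of elements of `co L`
  have hco : (co L).ncard + (L.filter fun z => ∃ u, z = Sum.inl u).card = Fintype.card τ := by
    have h1 : (L.filter fun z => ∃ u, z = Sum.inl u).card = ((co L)ᶜ).ncard := by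
      rw [← ncard_coe_finset]
      symm
      refine ncard_congr (fun u _ => Sum.inl u) ?_ ?_ ?_
      · intro u hu
        have : Sum.inl u ∈ L := by
          by_contra h
          exact hu h
        simp [this]
      · intro a b _ _ h
        exact Sum.inl_injective h
      · intro z hz
        simp only [Finset.coe_filter, mem_ofPred_eq] at hz
        obtain ⟨hz, u, rfl⟩ := hz
        exact ⟨u, fun h => h hz, rfl⟩
    rw [h1, ncard_add_ncard_compl, Nat.card_eq_fintype_card]
  have hcoL : m ≤ (co L).ncard := by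
    obtain ⟨I, hI, hI', hI''⟩ := (le_rk_iff hE).1 hrk
    rw [← hI'']
    exact ncard_le_ncard hI (toFinite _)
  have hinr : (L.filter fun z => ¬ ∃ u, z = Sum.inl u).card ≤ m := by
    have h1 : (L.filter fun z => ¬ ∃ u, z = Sum.inl u) ⊆
        Finset.univ.map ⟨Sum.inr, Sum.inr_injective⟩ := by
      intro z hz
      rw [Finset.mem_filter] at hz
      rcases z with u | t
      · exact absurd ⟨u, rfl⟩ hz.2
      · simp
    simpa using Finset.card_le_card h1
  have hsplit := Finset.card_filter_add_card_filter_not (s := L) (fun z => ∃ u, z = Sum.inl u)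
  have hinr' : (L.filter fun z => ¬ ∃ u, z = Sum.inl u).card = m := by omega
  have hco' : (co L).ncard = m := by omega
  have hYind : M₀.Indep (co L) := by
    obtain ⟨I, hI, hI', hI''⟩ := (le_rk_iff hE).1 hrk
    have : I = co L := eq_of_subset_of_ncard_le hI (by omega) (toFinite _)
    rwa [← this]
  -- the start set
  let X' : Set τ := {w | ∃ t, v w = Sum.inr t}
  have hX'card : X'.ncard = m := by
    rw [← hinr', ← ncard_coe_finset]
    refine ncard_congr (fun w _ => v w) ?_ ?_ ?_
    · rintro w ⟨t, ht⟩
      simp only [Finset.coe_filter, mem_ofPred_eq]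
      refine ⟨by rw [hL]; exact Finset.mem_image_of_mem _ (Finset.mem_univ _), ?_⟩
      rintro ⟨u, hu⟩
      rw [ht] at hu
      cases hu
    · intro a b _ _ h
      exact hinj h
    · intro z hz
      simp only [Finset.coe_filter, mem_ofPred_eq, hL, Finset.mem_image, Finset.mem_univ,
        true_and] at hz
      obtain ⟨⟨w, rfl⟩, hz⟩ := hz
      refine ⟨w, ?_, rfl⟩
      rcases hvw : v w with u | t
      · exact absurd ⟨u, hvw⟩ hz
      · exact ⟨t, hvw⟩
  have hX'X : X' ⊆ X := by
    rintro w ⟨t, ht⟩
    have := hv w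
    rw [ht] at this
    simpa [A] using this
  let next : τ → τ := fun u => if h : ∃ w, v w = Sum.inl u then h.choose else u
  have hnext : ∀ u, Sum.inl u ∈ L → v (next u) = Sum.inl u := by
    intro u hu
    have h : ∃ w, v w = Sum.inl u := by
      simpa [hL] using hu
    have h1 : next u = h.choose := by simp only [next]; rw [dif_pos h]
    rw [h1]
    exact h.choose_spec
  have hback : ∀ x ∈ X', ∀ y ∈ X', ∀ i j, (∀ i' < i, Sum.inl (next^[i'] x) ∈ L) →
      (∀ j' < j, Sum.inl (next^[j'] y) ∈ L) → next^[i] x = next^[j] y → x = y ∧ i = j := by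
    intro x hx y hy i
    induction i with
    | zero =>
      intro j _ hj h
      cases j with
      | zero => exact ⟨h, rfl⟩
      | succ j =>
        exfalso
        rw [Function.iterate_succ_apply'] at h
        have h1 := hnext _ (hj j (Nat.lt_succ_self j))
        rw [← h] at h1
        obtain ⟨t, ht⟩ := hx
        simp only [Function.iterate_zero, id] at h1
        rw [ht] at h1
        cases h1
    | succ i ih =>
      intro j hi hj h
      cases j with
      | zero =>
        exfalso
        rw [Function.iterate_succ_apply'] at h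
        have h1 := hnext _ (hi i (Nat.lt_succ_self i))
        rw [h] at h1
        obtain ⟨t, ht⟩ := hy
        simp only [Function.iterate_zero, id] at h1
        rw [ht] at h1
        cases h1
      | succ j =>
        rw [Function.iterate_succ_apply', Function.iterate_succ_apply'] at h
        have h1 := hnext _ (hi i (Nat.lt_succ_self i))
        have h2 := hnext _ (hj j (Nat.lt_succ_self j))
        rw [h] at h1
        rw [h1] at h2
        have h3 := ih j (fun i' hi' => hi i' (by omega)) (fun j' hj' => hj j' (by omega))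
          (Sum.inl_injective h2)
        exact ⟨h3.1, by rw [h3.2]⟩
  have hstop : ∀ x ∈ X', ∃ i, Sum.inl (next^[i] x) ∉ L := by
    intro x hx
    by_contra h
    push Not at h
    have : Function.Injective (fun i : ℕ => next^[i] x) := by
      intro i j hij
      exact (hback x hx x hx i j (fun i' _ => h i') (fun j' _ => h j') hij).2
    exact not_injective_infinite_finite _ this
  let len : τ → ℕ := fun x => if h : ∃ i, Sum.inl (next^[i] x) ∉ L then Nat.find h else 0
  have hlen : ∀ x ∈ X', Sum.inl (next^[len x] x) ∉ L ∧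
      ∀ i < len x, Sum.inl (next^[i] x) ∈ L := by
    intro x hx
    have h := hstop x hx
    have h1 : len x = Nat.find h := by simp only [len]; rw [dif_pos h]
    rw [h1]
    exact ⟨Nat.find_spec h, fun i hi => not_not.1 (Nat.find_min h hi)⟩
  refine ⟨X', hX'X, hX'card, (fun x => next^[len x] x) '' X', hYind.subset ?_,
    fun x i => next^[i] x, len, ?_, ?_, ?_, rfl⟩
  · rintro _ ⟨x, hx, rfl⟩
    exact (hlen x hx).1
  · intro x _
    rfl
  · intro x hx i hi
    have h1 := (hlen x hx).2 i hi
    have h2 := hnext _ h1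
    rw [← Function.iterate_succ_apply' next i x] at h2
    have h3 := hv (next^[i + 1] x)
    rw [h2] at h3
    simp only [A, Finset.mem_filter, Finset.mem_univ, true_and] at h3
    rcases h3 with h3 | ⟨u, h3, h4⟩ | ⟨t, h3, _⟩
    · exfalso
      have h4 := Sum.inl_injective h3
      have h5 := hback x hx x hx i (i + 1) (fun i' hi' => (hlen x hx).2 i' (by omega))
        (fun i' hi' => (hlen x hx).2 i' (by omega)) h4
      omega
    · rw [← Sum.inl_injective h3] at h4
      exact h4
    · cases h3
  · intro x hx y hy i hi j hj hij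
    exact hback x hx y hy i j (fun i' hi' => (hlen x hx).2 i' (by omega))
      (fun j' hj' => (hlen y hy).2 j' (by omega)) hij

end PoolH51.BO
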