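import Mathlib
import Pool.Agent.H51.BO.Link

open Set Matroid

namespace PoolH51.BO

variable {s : ℕ} {α β : Type}

lemma Cls.truncate (hs : 2 ≤ s) {M N : Matroid α} {k : ℕ} (hM : Cls s α M) (hk : k ≤ M.eRank)
    (hE : N.E = M.E) (hN : ∀ X : Set α, N.Indep X ↔ M.Indep X ∧ X.ncard ≤ k) : Cls s α N := by
  classical
  have hNE : N.E.Finite := by rw [hE]; exact hM.1
  refine ⟨hNE, ?_⟩
  have hk' : (k : ℤ) ≤ rk M M.E := by
    unfold rk
    rw [eRank_def, ← coe_rk hM.1] at hk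
    exact_mod_cast hk
  -- rank of the truncation
  have hrk : ∀ X, rk N X = min (k : ℤ) (rk M X) := by
    intro X
    apply le_antisymm
    · apply le_min
      · rw [rk_le_iff hNE]
        intro I _ hI
        exact ((hN I).1 hI).2
      · show rk N X ≤ ((M.eRk X).toNat : ℤ)
        rw [rk_le_iff hNE]
        intro I hI hI'
        exact (rk_le_iff hM.1 (X := X)).1 le_rfl I hI ((hN I).1 hI').1
    · obtain ⟨I, hI, hI', hI''⟩ := (le_rk_iff hM.1 (X := X) (n := min k (M.eRk X).toNat)).1 (by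
        show ((min k (M.eRk X).toNat : ℕ) : ℤ) ≤ ((M.eRk X).toNat : ℤ)
        omega)
      have h1 : ((min k (M.eRk X).toNat : ℕ) : ℤ) ≤ rk N X := by
        rw [le_rk_iff hNE]
        exact ⟨I, hI, (hN I).2 ⟨hI', by omega⟩, hI''⟩
      have h2 : ((min k (M.eRk X).toNat : ℕ) : ℤ) = min (k : ℤ) (rk M X) := by
        unfold rk
        omega
      rwa [h2] at h1
  -- expressibility
  let F : Set (α ⊕ (α ⊕ Unit)) → ℤ := fun Z =>
    (rk M (subst (fun a => Sum.inl (Sum.inr (Sum.inl a))) Z) +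
      ∑ e ∈ hM.1.toFinset, (if Sum.inr (Sum.inr ()) ∈ Z ∧ Sum.inr (Sum.inl e) ∉ Z then (1 : ℤ) else 0)) +
    ((∑ e ∈ hM.1.toFinset, (if Sum.inl e ∈ Z ∧ Sum.inr (Sum.inl e) ∉ Z then (1 : ℤ) else 0)) +
      if Sum.inr (Sum.inr ()) ∈ Z then (k : ℤ) - rk M M.E else 0)
  have hF : Expr s F :=
    ((hM.2.subst _).add (IsSum.sum _ fun e _ => (IsGate.binary hs _ _).isSum).expr).add
      ((IsSum.sum _ fun e _ => (IsGate.binary hs _ _).isSum).expr.add
        (IsGate.unary (by omega) _ _).isSum.expr)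
  refine hF.min (fun Z => ?_) (fun X => ?_)
  · rw [hrk]
    set X := (Sum.inl ⁻¹' Z : Set α) with hX
    set X' : Set α := {a | Sum.inr (Sum.inl a) ∈ Z} with hX'
    have e1 : subst (fun a => Sum.inl (Sum.inr (Sum.inl a))) Z = X' := by
      ext a; simp [subst, hX']
    have e2 : ∑ e ∈ hM.1.toFinset, (if Sum.inl e ∈ Z ∧ Sum.inr (Sum.inl e) ∉ Z then (1 : ℤ) else 0) =
        ((X ∩ M.E) \ X').ncard := by
      rw [Finset.sum_boole, ncard_eq_toFinset_card _ ((hM.1.inter_of_right _).sdiff)]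
      congr 2
      ext a
      simp [hX, hX']
      tauto
    show _ ≤ (rk M (subst (fun a => Sum.inl (Sum.inr (Sum.inl a))) Z) + _) + (_ + _)
    rw [e1, e2]
    by_cases hy : Sum.inr (Sum.inr ()) ∈ Z
    · have e3 : ∑ e ∈ hM.1.toFinset,
          (if Sum.inr (Sum.inr ()) ∈ Z ∧ Sum.inr (Sum.inl e) ∉ Z then (1 : ℤ) else 0) =
          (M.E \ X').ncard := by
        rw [Finset.sum_boole, ncard_eq_toFinset_card _ (hM.1.sdiff)]
        congr 2
        ext a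
        simp [hX', hy]
      rw [e3, if_pos hy]
      have h1 : rk M M.E ≤ rk M X' + (M.E \ X').ncard :=
        rk_le_add hM.1 hM.1.sdiff (by intro a ha; by_cases h : a ∈ X' <;> simp [h, ha])
      have h2 := min_le_left (k : ℤ) (rk M X)
      omega
    · have e3 : ∑ e ∈ hM.1.toFinset,
          (if Sum.inr (Sum.inr ()) ∈ Z ∧ Sum.inr (Sum.inl e) ∉ Z then (1 : ℤ) else 0) = 0 := by
        apply Finset.sum_eq_zero
        intro e _
        simp [hy]
      rw [e3, if_neg hy]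
      have h1 : rk M (X ∩ M.E) ≤ rk M X' + ((X ∩ M.E) \ X').ncard :=
        rk_le_add hM.1 ((hM.1.inter_of_right _).sdiff)
          (by intro a ha; by_cases h : a ∈ X' <;> simp [h, ha])
      rw [rk_inter_ground] at h1
      have h2 := min_le_right (k : ℤ) (rk M X)
      omega
  · rw [hrk]
    rcases le_total (rk M X) k with h | h
    · refine ⟨Sum.inl '' X ∪ Sum.inr '' (Sum.inl '' X), by ext; simp, ?_⟩
      rw [min_eq_right h]
      have e1 : subst (fun a => Sum.inl (Sum.inr (Sum.inl a)))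
          (Sum.inl '' X ∪ Sum.inr '' (Sum.inl '' X) : Set (α ⊕ (α ⊕ Unit))) = X := by
        ext a; simp [subst]
      show (rk M (subst (fun a => Sum.inl (Sum.inr (Sum.inl a))) _) + _) + (_ + _) ≤ _
      rw [e1, Finset.sum_eq_zero, Finset.sum_eq_zero, if_neg]
      · simp
      · simp
      · intro e _; simp
      · intro e _; simp
    · refine ⟨Sum.inl '' X ∪ Sum.inr '' univ, by ext; simp, ?_⟩
      rw [min_eq_left h]
      have e1 : subst (fun a => Sum.inl (Sum.inr (Sum.inl a)))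
          (Sum.inl '' X ∪ Sum.inr '' univ : Set (α ⊕ (α ⊕ Unit))) = univ := by
        ext a; simp [subst]
      show (rk M (subst (fun a => Sum.inl (Sum.inr (Sum.inl a))) _) + _) + (_ + _) ≤ _
      rw [e1, Finset.sum_eq_zero, Finset.sum_eq_zero, if_pos, ← rk_inter_ground, univ_inter]
      · simp
      · simp
      · intro e _; simp
      · intro e _; simp

lemma sum_ite_ncard {τ : Type} [Fintype τ] (p : τ → Prop) [DecidablePred p] :
    (∑ v : τ, (if p v then (1 : ℤ) else 0)) = (({v | p v} : Set τ).ncard : ℤ) := by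
  rw [Finset.sum_boole, ← ncard_coe_finset]
  congr 2
  ext a
  simp

lemma sum_ite_ncard' {τ : Type} [Fintype τ] (q p : τ → Prop) [DecidablePred q] [DecidablePred p] :
    (∑ v ∈ (Finset.univ.filter fun v => q v), (if p v then (1 : ℤ) else 0)) =
      (({v | q v ∧ p v} : Set τ).ncard : ℤ) := by
  rw [Finset.sum_boole, ← ncard_coe_finset]
  congr 2
  ext a
  simp

lemma Cls.induce (hs : 2 ≤ s) {τ : Type} [Finite τ] {adj : τ → τ → Prop} {M₀ N : Matroid τ}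
    {A : Set τ} (hM : Cls s τ M₀)
    (hN : ∀ X : Set τ, N.Indep X ↔ X ⊆ A ∧ ∃ Y, M₀.Indep Y ∧ Linked adj X Y) : Cls s τ N := by
  classical
  have := Fintype.ofFinite τ
  have hNE : N.E.Finite := toFinite _
  refine ⟨hNE, ?_⟩
  let F : Set (τ ⊕ (τ ⊕ τ)) → ℤ := fun Z =>
    (rk M₀ (subst (fun a => Sum.inl (Sum.inr (Sum.inr a))) Z) +
      ∑ v : τ, (if Sum.inr (Sum.inl v) ∈ Z ∧ Sum.inr (Sum.inr v) ∉ Z then (1 : ℤ) else 0)) +
    (∑ v ∈ (Finset.univ.filter fun v => v ∈ A),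
      (if Sum.inl v ∈ Z ∧ Sum.inr (Sum.inl v) ∉ Z then (1 : ℤ) else 0) +
     ∑ a ∈ (Finset.univ.filter fun a : τ × τ => adj a.1 a.2),
      (if Sum.inr (Sum.inr a.1) ∈ Z ∧ Sum.inr (Sum.inl a.2) ∉ Z then (1 : ℤ) else 0))
  have hF : Expr s F :=
    ((hM.2.subst _).add (IsSum.sum _ fun e _ => (IsGate.binary hs _ _).isSum).expr).add
      ((IsSum.sum _ fun e _ => (IsGate.binary hs _ _).isSum).expr.add
        (IsSum.sum _ fun e _ => (IsGate.binary hs _ _).isSum).expr)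
  have hFval : ∀ Z, F Z = (rk M₀ {a | Sum.inr (Sum.inr a) ∈ Z} +
      ({v | Sum.inr (Sum.inl v) ∈ Z ∧ Sum.inr (Sum.inr v) ∉ Z} : Set τ).ncard) +
      (({v | v ∈ A ∧ Sum.inl v ∈ Z ∧ Sum.inr (Sum.inl v) ∉ Z} : Set τ).ncard +
       ({a | adj a.1 a.2 ∧ Sum.inr (Sum.inr a.1) ∈ Z ∧ Sum.inr (Sum.inl a.2) ∉ Z} :
        Set (τ × τ)).ncard) := by
    intro Z
    show (rk M₀ (subst (fun a => Sum.inl (Sum.inr (Sum.inr a))) Z) +
      ∑ v : τ, (if Sum.inr (Sum.inl v) ∈ Z ∧ Sum.inr (Sum.inr v) ∉ Z then (1 : ℤ) else 0)) +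
    (∑ v ∈ (Finset.univ.filter fun v => v ∈ A),
      (if Sum.inl v ∈ Z ∧ Sum.inr (Sum.inl v) ∉ Z then (1 : ℤ) else 0) +
     ∑ a ∈ (Finset.univ.filter fun a : τ × τ => adj a.1 a.2),
      (if Sum.inr (Sum.inr a.1) ∈ Z ∧ Sum.inr (Sum.inl a.2) ∉ Z then (1 : ℤ) else 0)) = _
    rw [sum_ite_ncard, sum_ite_ncard', sum_ite_ncard']
    congr 3
  refine hF.min (fun Z => ?_) (fun X => ?_)
  · rw [hFval]
    set X := (Sum.inl ⁻¹' Z : Set τ) with hX
    set P : Set τ := {a | Sum.inr (Sum.inl a) ∈ Z} with hP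
    set Q : Set τ := {a | Sum.inr (Sum.inr a) ∈ Z} with hQ
    have e2 : ({v | Sum.inr (Sum.inl v) ∈ Z ∧ Sum.inr (Sum.inr v) ∉ Z} : Set τ) = P \ Q := by
      ext a
      simp [hP, hQ]
    have e3 : ({v | v ∈ A ∧ Sum.inl v ∈ Z ∧ Sum.inr (Sum.inl v) ∉ Z} : Set τ) =
        (X ∩ A) \ P := by
      ext a
      simp only [hP, hX, mem_sdiff, mem_inter_iff, mem_preimage, mem_ofPred_eq]
      tauto
    have e4 : (nb adj Q \ P).ncard ≤ ({a | adj a.1 a.2 ∧ Sum.inr (Sum.inr a.1) ∈ Z ∧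
        Sum.inr (Sum.inl a.2) ∉ Z} : Set (τ × τ)).ncard := by
      have h1 : (nb adj Q \ P) ⊆ (fun a : τ × τ => a.2) ''
          ({a | adj a.1 a.2 ∧ Sum.inr (Sum.inr a.1) ∈ Z ∧ Sum.inr (Sum.inl a.2) ∉ Z} :
          Set (τ × τ)) := by
        rintro w ⟨⟨u, hu, huw⟩, hw⟩
        exact ⟨(u, w), ⟨huw, hu, hw⟩, rfl⟩
      refine (ncard_le_ncard h1 (toFinite _)).trans ?_
      exact ncard_image_le (toFinite _)
    rw [e2, e3]
    -- the easy part of the linking theorem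
    have h1 : rk N X ≤ rk M₀ Q + (((X ∩ A) ∪ nb adj Q) \ Q).ncard := by
      have h2 : 0 ≤ rk M₀ Q := rk_nonneg _ _
      obtain ⟨n, hn⟩ := Int.eq_ofNat_of_zero_le
        (add_nonneg h2 (Int.natCast_nonneg (((X ∩ A) ∪ nb adj Q) \ Q).ncard))
      rw [hn]
      show rk N X ≤ (n : ℤ)
      rw [rk_le_iff hNE]
      intro I hI hI'
      obtain ⟨h3, Y, hY, hL⟩ := (hN I).1 hI'
      have h4 := link_le (Q := Q) (subset_inter hI h3) hY hL
      omega
    have h5 : (((X ∩ A) ∪ nb adj Q) \ Q) ⊆ (P \ Q) ∪ (((X ∩ A) \ P) ∪ (nb adj Q \ P)) := by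
      rintro w ⟨hw, hwQ⟩
      by_cases hwP : w ∈ P
      · exact Or.inl ⟨hwP, hwQ⟩
      · right
        rcases hw with hw | hw
        · exact Or.inl ⟨hw, hwP⟩
        · exact Or.inr ⟨hw, hwP⟩
    have h6 := (ncard_le_ncard h5 (toFinite _)).trans (ncard_union_le _ _)
    have h7 := ncard_union_le ((X ∩ A) \ P) (nb adj Q \ P)
    omega
  · have hex : ∃ Q : Set τ, rk M₀ Q + (((X ∩ A) ∪ nb adj Q) \ Q).ncard ≤ rk N X := by
      by_contra hcon
      push Not at hcon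
      have h2 : 0 ≤ rk N X := rk_nonneg _ _
      obtain ⟨n, hn⟩ := Int.eq_ofNat_of_zero_le h2
      obtain ⟨X', hX', hX'', Y, hY, hL⟩ := link_exists (adj := adj) (M₀ := M₀) (X := X ∩ A)
        (m := n + 1) (fun Q => by have := hcon Q; rw [hn] at this; push_cast; exact this)
      have h3 : ((n + 1 : ℕ) : ℤ) ≤ rk N X := by
        rw [le_rk_iff hNE]
        exact ⟨X', fun x hx => (hX' hx).1, (hN X').2 ⟨fun x hx => (hX' hx).2, Y, hY, hL⟩, hX''⟩
      rw [hn] at h3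
      push_cast at h3
      simp at h3
    obtain ⟨Q, hQ⟩ := hex
    refine ⟨Sum.inl '' X ∪ Sum.inr '' (Sum.inl '' ((X ∩ A) ∪ nb adj Q) ∪ Sum.inr '' Q),
      by ext; simp, le_trans (le_of_eq ?_) hQ⟩
    rw [hFval]
    have e1 : ({a | Sum.inr (Sum.inr a) ∈
        (Sum.inl '' X ∪ Sum.inr '' (Sum.inl '' ((X ∩ A) ∪ nb adj Q) ∪ Sum.inr '' Q) :
          Set (τ ⊕ (τ ⊕ τ)))} : Set τ) = Q := by
      ext a; simp
    have e2 : ({v | Sum.inr (Sum.inl v) ∈
        (Sum.inl '' X ∪ Sum.inr '' (Sum.inl '' ((X ∩ A) ∪ nb adj Q) ∪ Sum.inr '' Q) :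
          Set (τ ⊕ (τ ⊕ τ))) ∧ Sum.inr (Sum.inr v) ∉
        (Sum.inl '' X ∪ Sum.inr '' (Sum.inl '' ((X ∩ A) ∪ nb adj Q) ∪ Sum.inr '' Q) :
          Set (τ ⊕ (τ ⊕ τ)))} : Set τ) = ((X ∩ A) ∪ nb adj Q) \ Q := by
      ext a; simp
    have e3 : ({v | v ∈ A ∧ Sum.inl v ∈
        (Sum.inl '' X ∪ Sum.inr '' (Sum.inl '' ((X ∩ A) ∪ nb adj Q) ∪ Sum.inr '' Q) :
          Set (τ ⊕ (τ ⊕ τ))) ∧ Sum.inr (Sum.inl v) ∉
        (Sum.inl '' X ∪ Sum.inr '' (Sum.inl '' ((X ∩ A) ∪ nb adj Q) ∪ Sum.inr '' Q) :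
          Set (τ ⊕ (τ ⊕ τ)))} : Set τ) = ∅ := by
      ext a
      simp only [mem_union, mem_image, Sum.inl.injEq, exists_eq_right, reduceCtorEq, and_false,
        exists_false, or_false, Sum.inr.injEq, false_or, mem_inter_iff, not_or, mem_ofPred_eq,
        mem_empty_iff_false, iff_false]
      tauto
    have e4 : ({a | adj a.1 a.2 ∧ Sum.inr (Sum.inr a.1) ∈
        (Sum.inl '' X ∪ Sum.inr '' (Sum.inl '' ((X ∩ A) ∪ nb adj Q) ∪ Sum.inr '' Q) :
          Set (τ ⊕ (τ ⊕ τ))) ∧ Sum.inr (Sum.inl a.2) ∉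
        (Sum.inl '' X ∪ Sum.inr '' (Sum.inl '' ((X ∩ A) ∪ nb adj Q) ∪ Sum.inr '' Q) :
          Set (τ ⊕ (τ ⊕ τ)))} : Set (τ × τ)) = ∅ := by
      ext ⟨u, w⟩
      simp only [mem_ofPred_eq, mem_empty_iff_false, iff_false, not_and, not_not]
      intro huw hu
      have hu' : u ∈ Q := by simpa using hu
      right
      refine ⟨Sum.inl w, Or.inl ⟨w, Or.inr ⟨u, hu', huw⟩, rfl⟩, rfl⟩
    rw [e1, e2, e3, e4]
    simp

/-- The matroids whose rank function is expressible with gates of arity at most `s` form a complete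
class. -/
theorem cls_complete (hs : 2 ≤ s) : IsComplete (Cls s) where
  finite _ _ h := h.1
  iso _ _ _ _ h h' := h.iso h'
  restrict _ _ _ h h' := h.restrict h'
  contract _ _ _ h _ := h.contract (by omega) _
  dual _ _ h := h.dual (by omega)
  sum _ _ _ _ h h' := h.sum h'
  truncate _ _ _ _ h h1 h2 h3 := h.truncate hs h1 h2 h3
  induce _ _ _ _ _ _ h _ h2 := h.induce hs h2

end PoolH51.BO
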