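import Mathlib
import Pool.Agent.H51.BO.Expr

open Set

namespace PoolH51.BO

lemma IsSum.exists_gates {s : ℕ} {W : Type} {H : Set W → ℤ} (h : IsSum s H) :
    ∃ (J : Type) (_ : Fintype J) (g : J → Set W → ℤ), (∀ j, IsGate s (g j)) ∧
      ∀ Z, H Z = ∑ j, g j Z := by
  unfold IsSum at h
  induction h using AddSubmonoid.closure_induction with
  | mem x hx => exact ⟨Unit, inferInstance, fun _ => x, fun _ => hx, fun Z => by simp⟩
  | zero => exact ⟨Empty, inferInstance, fun e => e.elim, fun e => e.elim, fun Z => by simp⟩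
  | add x y _ _ hx hy =>
    obtain ⟨J, _, g, h1, h2⟩ := hx
    obtain ⟨J', _, g', h1', h2'⟩ := hy
    refine ⟨J ⊕ J', inferInstance, Sum.elim g g', ?_, fun Z => ?_⟩
    · rintro (j | j)
      · exact h1 j
      · exact h1' j
    · simp [h2, h2']

lemma family {W J : Type} [Fintype J] {s : ℕ} {g : J → Set W → ℤ}
    (hg : ∀ j, IsGate s (g j)) {H : Set W → ℤ} (hH : ∀ Z, H Z = ∑ j, g j Z) {N : Set W}
    (hN : H N = 0) {Λ : Type} [Fintype Λ] [DecidableEq Λ] (P : Λ → Set W) (hP : ∀ a, N ⊆ P a)
    (hPP : ∀ a b, a ≠ b → P a ∩ P b ⊆ N)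
    (hmod : ∀ a b, a ≠ b → H (P a) + H (P b) ≤ H (P a ∪ P b)) {m : ℕ}
    (hm : ∑ a, H (P a) ≤ H (N ∪ ⋃ a ∈ (Finset.univ : Finset Λ), P a) + m) :
    ∃ (Bad : Finset J) (T : J → Finset Λ), Bad.card ≤ m ∧ (∀ j, (T j).card ≤ s) ∧
      ∀ I : Finset Λ, (∀ j ∈ Bad, (I ∩ T j).card ≤ 2) →
        H (N ∪ ⋃ a ∈ I, P a) = ∑ a ∈ I, H (P a) := by
  classical
  choose hsub S hS hsupp using hg
  let U : Finset Λ → Set W := fun I => N ∪ ⋃ a ∈ I, P a
  let D : J → Finset Λ → ℤ := fun j I => ∑ a ∈ I, (g j (P a) - g j N) - (g j (U I) - g j N)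
  let T : J → Finset Λ := fun j => Finset.univ.filter fun a => ∃ w ∈ P a, w ∈ S j ∧ w ∉ N
  have hU0 : U ∅ = N := by simp [U]
  have hUins : ∀ a I, U (insert a I) = U I ∪ P a := by
    intro a I
    ext w
    simp only [U, Finset.mem_insert, iUnion_iUnion_eq_or_left, mem_union]
    tauto
  have hUint : ∀ a I, a ∉ I → U I ∩ P a = N := by
    intro a I ha
    ext w
    simp only [U, mem_inter_iff, mem_union, mem_iUnion]
    constructor
    · rintro ⟨h | ⟨b, hb, h⟩, h'⟩
      · exact h
      · exact hPP b a (fun hab => ha (hab ▸ hb)) ⟨h, h'⟩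
    · intro h
      exact ⟨Or.inl h, hP a h⟩
  have hstep : ∀ j a I, a ∉ I → D j I ≤ D j (insert a I) := by
    intro j a I ha
    have h1 := hsub j (U I) (P a)
    rw [hUint a I ha, ← hUins] at h1
    simp only [D]
    rw [Finset.sum_insert ha]
    linarith
  have hmono : ∀ j I K, D j I ≤ D j (I ∪ K) := by
    intro j I K
    induction K using Finset.induction_on with
    | empty => simp
    | insert a K haK ih =>
      rw [Finset.union_insert]
      by_cases ha : a ∈ I ∪ K
      · rwa [Finset.insert_eq_of_mem ha]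
      · exact ih.trans (hstep j a _ ha)
  have hD0 : ∀ j, D j ∅ = 0 := by
    intro j
    simp only [D, hU0, Finset.sum_empty]
    ring
  have hD1 : ∀ j a, D j {a} = 0 := by
    intro j a
    have h1 : U {a} = P a := by
      have := hUins a ∅
      rw [hU0] at this
      rw [← union_eq_self_of_subset_left (hP a), ← this]
      rfl
    simp only [D, h1, Finset.sum_singleton]
    ring
  have hgmod : ∀ j a b, a ≠ b → g j (P a) + g j (P b) = g j (P a ∪ P b) + g j N := by
    intro j a b hab
    have hint : P a ∩ P b = N := subset_antisymm (hPP a b hab) (subset_inter (hP a) (hP b))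
    have h1 : ∀ i, 0 ≤ g i (P a) + g i (P b) - g i (P a ∪ P b) - g i N := by
      intro i
      have := hsub i (P a) (P b)
      rw [hint] at this
      linarith
    have h2 : ∑ i, (g i (P a) + g i (P b) - g i (P a ∪ P b) - g i N) ≤ 0 := by
      rw [Finset.sum_sub_distrib, Finset.sum_sub_distrib, Finset.sum_add_distrib, ← hH, ← hH,
        ← hH, ← hH, hN]
      have := hmod a b hab
      linarith
    have h3 : ∑ i, (g i (P a) + g i (P b) - g i (P a ∪ P b) - g i N) = 0 :=
      le_antisymm h2 (Finset.sum_nonneg fun i _ => h1 i)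
    have h4 := (Finset.sum_eq_zero_iff_of_nonneg fun i _ => h1 i).1 h3 j (Finset.mem_univ _)
    linarith
  have hD2 : ∀ j a b, a ≠ b → D j {a, b} = 0 := by
    intro j a b hab
    have h1 : U {a, b} = P a ∪ P b := by
      have h2 := hUins a {b}
      have h3 := hUins b ∅
      rw [hU0] at h3
      have h4 : (insert b ∅ : Finset Λ) = {b} := rfl
      rw [h4] at h3
      rw [h2, h3, union_eq_self_of_subset_left (hP b), union_comm]
    simp only [D, h1]
    rw [Finset.sum_pair hab]
    have := hgmod j a b hab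
    linarith
  -- elements outside `T j` are invisible to gate `j`
  have hout : ∀ j a, a ∉ T j → g j (P a) = g j N := by
    intro j a ha
    rw [hsupp j (P a), hsupp j N]
    congr 1
    ext w
    simp only [mem_inter_iff, Finset.mem_coe]
    constructor
    · rintro ⟨h1, h2⟩
      refine ⟨?_, h2⟩
      by_contra h3
      exact ha (by simp only [T, Finset.mem_filter, Finset.mem_univ, true_and]; exact ⟨w, h1, h2, h3⟩)
    · rintro ⟨h1, h2⟩
      exact ⟨hP a h1, h2⟩
  have hDT : ∀ j I, D j I = D j (I ∩ T j) := by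
    intro j I
    have h1 : g j (U I) = g j (U (I ∩ T j)) := by
      rw [hsupp j (U I), hsupp j (U _)]
      congr 1
      ext w
      simp only [U, mem_inter_iff, Finset.mem_coe, mem_union, mem_iUnion, Finset.mem_inter]
      constructor
      · rintro ⟨h1, h2⟩
        refine ⟨?_, h2⟩
        rcases h1 with h1 | ⟨a, ha, h1⟩
        · exact Or.inl h1
        · by_cases h3 : w ∈ N
          · exact Or.inl h3
          · right
            refine ⟨a, ⟨ha, ?_⟩, h1⟩
            simp only [T, Finset.mem_filter, Finset.mem_univ, true_and]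
            exact ⟨w, h1, h2, h3⟩
      · rintro ⟨h1, h2⟩
        refine ⟨?_, h2⟩
        rcases h1 with h1 | ⟨a, ha, h1⟩
        · exact Or.inl h1
        · exact Or.inr ⟨a, ha.1, h1⟩
    simp only [D]
    rw [h1]
    congr 1
    rw [← Finset.sum_inter_add_sum_sdiff I (T j)]
    rw [add_eq_left]
    apply Finset.sum_eq_zero
    intro a ha
    rw [Finset.mem_sdiff] at ha
    rw [hout j a ha.2]
    ring
  have hDle2 : ∀ j K, K.card ≤ 2 → D j K = 0 := by
    intro j K hK
    rcases Nat.lt_or_ge K.card 1 with h | h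
    · have : K = ∅ := by rw [← Finset.card_eq_zero]; omega
      rw [this, hD0]
    · rcases Nat.lt_or_ge K.card 2 with h' | h'
      · obtain ⟨a, rfl⟩ := Finset.card_eq_one.1 (by omega : K.card = 1)
        exact hD1 j a
      · obtain ⟨a, b, hab, rfl⟩ := Finset.card_eq_two.1 (by omega : K.card = 2)
        exact hD2 j a b hab
  have hDnn : ∀ j I, 0 ≤ D j I := by
    intro j I
    have := hmono j ∅ I
    rwa [hD0, Finset.empty_union] at this
  have hDsum : ∀ I, ∑ j, D j I = ∑ a ∈ I, H (P a) - H (U I) := by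
    intro I
    simp only [D]
    rw [Finset.sum_sub_distrib, Finset.sum_sub_distrib, Finset.sum_comm, ← hH, ← hH, hN]
    simp only [Finset.sum_sub_distrib, ← hH, hN]
    simp
  refine ⟨Finset.univ.filter fun j => 1 ≤ D j Finset.univ, T, ?_, ?_, ?_⟩
  · have h1 := hDsum Finset.univ
    have h2 : ∑ j, D j Finset.univ ≤ m := by
      rw [h1]
      simp only [U]
      linarith
    have h3 : (((Finset.univ.filter fun j => 1 ≤ D j Finset.univ).card : ℕ) : ℤ) ≤
        ∑ j, D j Finset.univ := by
      rw [Finset.card_filter]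
      push_cast
      apply Finset.sum_le_sum
      intro j _
      split_ifs with h
      · exact h
      · exact hDnn j _
    exact_mod_cast h3.trans h2
  · intro j
    refine le_trans ?_ (hS j)
    have hch : ∀ a ∈ T j, ∃ w, w ∈ P a ∧ w ∈ S j ∧ w ∉ N := by
      intro a ha
      simp only [T, Finset.mem_filter, Finset.mem_univ, true_and] at ha
      obtain ⟨w, h1, h2, h3⟩ := ha
      exact ⟨w, h1, h2, h3⟩
    rcases isEmpty_or_nonempty W with hWe | hWne
    · have : T j = ∅ := by
        rw [Finset.eq_empty_iff_forall_notMem]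
        intro a ha
        obtain ⟨w, _⟩ := hch a ha
        exact hWe.elim w
      rw [this]
      simp
    choose! w hw using hch
    apply Finset.card_le_card_of_injOn w
    · intro a ha
      exact (hw a ha).2.1
    · intro a ha b hb hab
      by_contra hne
      apply (hw a ha).2.2
      apply hPP a b hne
      refine ⟨(hw a ha).1, ?_⟩
      rw [hab]
      exact (hw b hb).1
  · intro I hI
    have h1 := hDsum I
    have h2 : ∑ j, D j I = 0 := by
      apply Finset.sum_eq_zero
      intro j _
      by_cases hj : 1 ≤ D j Finset.univ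
      · rw [hDT]
        exact hDle2 j _ (hI j (by simp [hj]))
      · have h3 := hmono j I Finset.univ
        rw [Finset.union_eq_right.2 (Finset.subset_univ I)] at h3
        have h4 := hDnn j I
        omega
    have h3 : H (N ∪ ⋃ a ∈ I, P a) = H (U I) := rfl
    rw [h3]
    linarith

end PoolH51.BO
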