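import Mathlib
import Pool.Agent.H51.BO.Family

open Set

namespace PoolH51.BO

lemma choose_rows {d s : ℕ} (hd : 3 * (1 + 3 * s ^ 2) < d) {K : Type} (𝒦 : Finset K)
    (T : K → Finset (Fin d)) (h𝒦 : 𝒦.card ≤ 3 * d) (hT : ∀ k ∈ 𝒦, (T k).card ≤ s) :
    ∃ i₁ i₂ i₃ : Fin d, i₁ ≠ i₂ ∧ i₁ ≠ i₃ ∧ i₂ ≠ i₃ ∧ ∀ k ∈ 𝒦,
      ¬ (i₁ ∈ T k ∧ i₂ ∈ T k) ∧ ¬ (i₁ ∈ T k ∧ i₃ ∈ T k) ∧ ¬ (i₂ ∈ T k ∧ i₃ ∈ T k) := by
  classical
  let B : Finset (Fin d × Fin d) :=
    Finset.univ.filter fun p => p.1 = p.2 ∨ ∃ k ∈ 𝒦, p.1 ∈ T k ∧ p.2 ∈ T k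
  have hB : B.card ≤ d + 3 * d * s ^ 2 := by
    have h1 : B ⊆ (Finset.univ.image fun i : Fin d => (i, i)) ∪ 𝒦.biUnion fun k => T k ×ˢ T k := by
      rintro ⟨i, j⟩ hij
      simp only [B, Finset.mem_filter, Finset.mem_univ, true_and] at hij
      simp only [Finset.mem_union, Finset.mem_image, Finset.mem_univ, true_and,
        Finset.mem_biUnion, Finset.mem_product]
      rcases hij with h | ⟨k, hk, h⟩
      · left
        exact ⟨i, by rw [h]⟩
      · right
        exact ⟨k, hk, h⟩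
    refine (Finset.card_le_card h1).trans ((Finset.card_union_le _ _).trans (add_le_add ?_ ?_))
    · exact Finset.card_image_le.trans (by simp)
    · refine Finset.card_biUnion_le.trans ?_
      refine (Finset.sum_le_card_nsmul _ _ (s ^ 2) fun k hk => ?_).trans ?_
      · rw [Finset.card_product, pow_two]
        exact Nat.mul_le_mul (hT k hk) (hT k hk)
      · rw [smul_eq_mul]
        exact Nat.mul_le_mul_right _ h𝒦
  by_contra hcon
  push Not at hcon
  let e₁ : (Fin d × Fin d) × Fin d → Fin d × Fin d × Fin d := fun q => (q.1.1, q.1.2, q.2)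
  let e₂ : (Fin d × Fin d) × Fin d → Fin d × Fin d × Fin d := fun q => (q.1.1, q.2, q.1.2)
  let e₃ : (Fin d × Fin d) × Fin d → Fin d × Fin d × Fin d := fun q => (q.2, q.1.1, q.1.2)
  have hcov : (Finset.univ : Finset (Fin d × Fin d × Fin d)) ⊆
      (B ×ˢ Finset.univ).image e₁ ∪ ((B ×ˢ Finset.univ).image e₂ ∪ (B ×ˢ Finset.univ).image e₃) := by
    rintro ⟨i, j, k⟩ _
    simp only [Finset.mem_union, Finset.mem_image, Finset.mem_product, Finset.mem_univ, and_true]
    by_cases h1 : (i, j) ∈ B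
    · left
      exact ⟨((i, j), k), h1, rfl⟩
    by_cases h2 : (i, k) ∈ B
    · right; left
      exact ⟨((i, k), j), h2, rfl⟩
    by_cases h3 : (j, k) ∈ B
    · right; right
      exact ⟨((j, k), i), h3, rfl⟩
    exfalso
    simp only [B, Finset.mem_filter, Finset.mem_univ, true_and, not_or, not_exists, not_and] at h1 h2 h3
    obtain ⟨K, hK, h4⟩ := hcon i j k h1.1 h2.1 h3.1
    by_cases h5 : i ∈ T K ∧ j ∈ T K
    · exact h1.2 K hK h5.1 h5.2
    by_cases h6 : i ∈ T K ∧ k ∈ T K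
    · exact h2.2 K hK h6.1 h6.2
    have h7 := h4 (fun h8 h9 => h5 ⟨h8, h9⟩) (fun h8 h9 => h6 ⟨h8, h9⟩)
    exact h3.2 K hK h7.1 h7.2
  have h1 := Finset.card_le_card hcov
  have h2 : ∀ e : (Fin d × Fin d) × Fin d → Fin d × Fin d × Fin d,
      ((B ×ˢ (Finset.univ : Finset (Fin d))).image e).card ≤ B.card * d := by
    intro e
    refine Finset.card_image_le.trans ?_
    rw [Finset.card_product]
    simp
  have h3 := (Finset.card_union_le ((B ×ˢ Finset.univ).image e₁)
    ((B ×ˢ Finset.univ).image e₂ ∪ (B ×ˢ Finset.univ).image e₃))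
  have h4 := (Finset.card_union_le ((B ×ˢ Finset.univ).image e₂) ((B ×ˢ Finset.univ).image e₃))
  have h5 := h2 e₁
  have h6 := h2 e₂
  have h7 := h2 e₃
  have h8 : (Finset.univ : Finset (Fin d × Fin d × Fin d)).card = d * (d * d) := by
    simp [Finset.card_univ]
  rw [h8] at h1
  have h9 : d * (d * d) ≤ 3 * (B.card * d) := by omega
  have h10 : 3 * (B.card * d) ≤ 3 * ((d + 3 * d * s ^ 2) * d) := by gcongr
  have hdpos : 0 < d := by omega
  have h11 : 3 * ((d + 3 * d * s ^ 2) * d) = (3 * (1 + 3 * s ^ 2)) * (d * d) := by ring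
  have h12 : (3 * (1 + 3 * s ^ 2)) * (d * d) < d * (d * d) :=
    Nat.mul_lt_mul_of_pos_right hd (Nat.mul_pos hdpos hdpos)
  omega

/-- the largest zero of `H` over the empty set -/
lemma exists_largest {α V J : Type} [Fintype J] {s : ℕ} {g : J → Set (α ⊕ V) → ℤ}
    (hg : ∀ j, IsGate s (g j)) {H : Set (α ⊕ V) → ℤ} (hH : ∀ Z, H Z = ∑ j, g j Z)
    (hpos : ∀ Z : Set (α ⊕ V), Sum.inl ⁻¹' Z = ∅ → 0 ≤ H Z)
    (hex : ∃ Z : Set (α ⊕ V), Sum.inl ⁻¹' Z = ∅ ∧ H Z ≤ 0) :
    ∃ N : Set (α ⊕ V), Sum.inl ⁻¹' N = ∅ ∧ H N = 0 ∧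
      ∀ Z : Set (α ⊕ V), Sum.inl ⁻¹' Z = ∅ → H Z ≤ 0 → Z ⊆ N := by
  classical
  choose hsub S hS hsupp using hg
  have hHsub : ∀ A B, H (A ∪ B) + H (A ∩ B) ≤ H A + H B := by
    intro A B
    simp only [hH, ← Finset.sum_add_distrib]
    exact Finset.sum_le_sum fun j _ => hsub j A B
  let T : Finset (α ⊕ V) := Finset.univ.biUnion S
  have hHT : ∀ A B : Set (α ⊕ V), A ∩ ↑T = B ∩ ↑T → H A = H B := by
    intro A B hAB
    rw [hH, hH]
    apply Finset.sum_congr rfl
    intro j _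
    rw [hsupp j A, hsupp j B]
    congr 1
    have hST : (S j : Set (α ⊕ V)) ⊆ ↑T := by
      intro w hw
      simp only [T, Finset.coe_biUnion, mem_iUnion]
      exact ⟨j, by simp, hw⟩
    rw [← inter_eq_self_of_subset_right hST, ← inter_assoc, hAB, inter_assoc]
  -- maximise the size of the trace on the support
  obtain ⟨Z₀, ⟨hZ₀, hZ₀'⟩, hmax⟩ : ∃ Z₀ ∈ {Z : Set (α ⊕ V) | Sum.inl ⁻¹' Z = ∅ ∧ H Z ≤ 0},
      ∀ Z ∈ {Z : Set (α ⊕ V) | Sum.inl ⁻¹' Z = ∅ ∧ H Z ≤ 0},
        (Z ∩ ↑T).ncard ≤ (Z₀ ∩ ↑T).ncard := by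
    have hbdd : ∀ Z ∈ {Z : Set (α ⊕ V) | Sum.inl ⁻¹' Z = ∅ ∧ H Z ≤ 0},
        (Z ∩ ↑T).ncard ≤ T.card := by
      intro Z _
      rw [← ncard_coe_finset]
      exact ncard_le_ncard inter_subset_right (Finset.finite_toSet _)
    have hfin : ((fun Z : Set (α ⊕ V) => (Z ∩ ↑T).ncard) ''
        {Z : Set (α ⊕ V) | Sum.inl ⁻¹' Z = ∅ ∧ H Z ≤ 0}).Finite := by
      apply (finite_Iic T.card).subset
      rintro _ ⟨Z, hZ, rfl⟩
      exact hbdd Z hZ
    obtain ⟨Z₁, hZ₁⟩ := hex
    obtain ⟨n, ⟨Z₀, hZ₀, rfl⟩, hn⟩ := hfin.exists_maximal ⟨_, Z₁, hZ₁, rfl⟩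
    refine ⟨Z₀, hZ₀, fun Z hZ => ?_⟩
    by_contra hlt
    push Not at hlt
    exact absurd (hn ⟨Z, hZ, rfl⟩ hlt.le) (by simpa using hlt)
  refine ⟨Z₀ ∪ {w | w ∉ T ∧ ∃ v, w = Sum.inr v}, ?_, ?_, ?_⟩
  · rw [preimage_union, hZ₀, empty_union]
    ext a
    simp
  · have h1 : H (Z₀ ∪ {w | w ∉ T ∧ ∃ v, w = Sum.inr v}) = H Z₀ := by
      apply hHT
      ext w
      simp only [mem_inter_iff, mem_union, mem_ofPred_eq, Finset.mem_coe]
      tauto
    rw [h1]
    exact le_antisymm hZ₀' (hpos _ hZ₀)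
  · intro Z hZ hZ'
    have h1 : Sum.inl ⁻¹' (Z₀ ∪ Z) = (∅ : Set α) := by
      rw [preimage_union, hZ₀, hZ, empty_union]
    have h2 : Sum.inl ⁻¹' (Z₀ ∩ Z) = (∅ : Set α) := by
      rw [preimage_inter, hZ₀, empty_inter]
    have h3 := hHsub Z₀ Z
    have h4 := hpos _ h2
    have h5 := hmax (Z₀ ∪ Z) ⟨h1, by linarith⟩
    have h6 : (Z₀ ∪ Z) ∩ ↑T = Z₀ ∩ ↑T := by
      symm
      exact eq_of_subset_of_ncard_le (inter_subset_inter_left _ subset_union_left) h5
    intro w hw
    by_cases hwT : w ∈ T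
    · left
      have h7 : w ∈ (Z₀ ∪ Z) ∩ ↑T := ⟨Or.inr hw, hwT⟩
      rw [h6] at h7
      exact h7.1
    · right
      refine ⟨hwT, ?_⟩
      rcases w with a | v
      · exfalso
        have : a ∈ (Sum.inl ⁻¹' Z : Set α) := hw
        rw [hZ] at this
        exact this
      · exact ⟨v, rfl⟩

/-! ### The point set -/

/-- points: `none` is the apex, `some (b, i)` is the `i`-th point of the line `C b`. -/
abbrev Pt (d : ℕ) : Type := Option (Bool × Fin d)

/-- the two long lines -/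
def lineC {d : ℕ} (b : Bool) : Set (Pt d) := {a | ∃ i, a = some (b, i)}

/-- the short lines -/
def lineR {d : ℕ} (i : Fin d) : Set (Pt d) := {a | a = none ∨ ∃ b, a = some (b, i)}

theorem not_expr {d s : ℕ} (hd : 3 * (1 + 3 * s ^ 2) < d) {h : Set (Pt d) → ℤ}
    (hmono : ∀ A B, A ⊆ B → h A ≤ h B) (h0 : h ∅ = 0) (hR : ∀ i, h (lineR i) ≤ 2)
    (hC : ∀ b, h (lineC b) ≤ 2) (h1 : ∀ a, 1 ≤ h {a}) (h2 : ∀ a b, a ≠ b → 2 ≤ h {a, b})
    (h3R : ∀ i b, 3 ≤ h (lineR i ∪ lineC b))
    (h3C : ∀ i b, 3 ≤ h (insert (some (b, i)) (lineC (!b)))) : ¬ Expr s h := by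
  classical
  rintro ⟨V, H, hH, hle, hex⟩
  obtain ⟨J, _, g, hg, hHg⟩ := hH.exists_gates
  have hsub : ∀ A B, H (A ∪ B) + H (A ∩ B) ≤ H A + H B := by
    intro A B
    simp only [hHg, ← Finset.sum_add_distrib]
    exact Finset.sum_le_sum fun j _ => (hg j).1 A B
  have hd0 : 0 < d := by omega
  -- the largest zero
  obtain ⟨N, hN, hN0, hNmax⟩ := exists_largest hg hHg
    (fun Z hZ => by have := hle Z; rw [hZ, h0] at this; exact this)
    (by obtain ⟨Z, hZ, hZ'⟩ := hex ∅; exact ⟨Z, hZ, by rw [h0] at hZ'; exact hZ'⟩)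
  have hNmax' : ∀ Z, Sum.inl ⁻¹' Z = (∅ : Set (Pt d)) → H Z ≤ 0 → Z ⊆ N := hNmax
  -- good representatives
  have hY : ∀ X : Set (Pt d), ∃ Y, N ⊆ Y ∧ Sum.inl ⁻¹' Y = X ∧ H Y ≤ h X := by
    intro X
    obtain ⟨Z, hZ, hZ'⟩ := hex X
    refine ⟨Z ∪ N, subset_union_right, by rw [preimage_union, hZ, hN, union_empty], ?_⟩
    have e1 := hsub Z N
    have e2 := hle (Z ∩ N)
    rw [preimage_inter, hN, inter_empty, h0] at e2
    linarith
  choose Y hNY hYf hYH using hY
  have hlow : ∀ (Z : Set (Pt d ⊕ V)) (A : Set (Pt d)), A ⊆ Sum.inl ⁻¹' Z → h A ≤ H Z :=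
    fun Z A hA => (hmono _ _ hA).trans (hle Z)
  -- the points
  let P : Bool → Fin d → Set (Pt d ⊕ V) := fun b i => Y (lineR i) ∩ Y (lineC b)
  have hPf : ∀ b i, Sum.inl ⁻¹' (P b i) = ({some (b, i)} : Set (Pt d)) := by
    intro b i
    simp only [P, preimage_inter, hYf]
    ext a
    simp only [lineR, lineC, mem_inter_iff, mem_ofPred_eq, mem_singleton_iff]
    constructor
    · rintro ⟨h4 | ⟨b', h4⟩, i', h5⟩
      · rw [h4] at h5; cases h5
      · rw [h5] at h4 ⊢
        simp only [Option.some.injEq, Prod.mk.injEq] at h4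
        rw [h4.2]
    · intro h4
      exact ⟨Or.inr ⟨b, h4⟩, i, h4⟩
  have hNP : ∀ b i, N ⊆ P b i := fun b i => subset_inter (hNY _) (hNY _)
  have hPle : ∀ b i, H (P b i) ≤ 1 := by
    intro b i
    have e1 := hsub (Y (lineR i)) (Y (lineC b))
    have e2 := hYH (lineR i)
    have e3 := hYH (lineC b)
    have e4 := hlow (Y (lineR i) ∪ Y (lineC b)) (lineR i ∪ lineC b)
      (by rw [preimage_union, hYf, hYf])
    have e5 := h3R i b
    have e6 := hR i
    have e7 := hC b
    have e8 : H (P b i) = H (Y (lineR i) ∩ Y (lineC b)) := rfl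
    linarith
  have hPge : ∀ b i, 1 ≤ H (P b i) := fun b i =>
    (h1 _).trans (hlow _ _ (by rw [hPf]))
  have hPeq : ∀ b i, H (P b i) = 1 := fun b i => le_antisymm (hPle b i) (hPge b i)
  have hPPge : ∀ b i k, i ≠ k → 2 ≤ H (P b i ∪ P b k) := by
    intro b i k hik
    refine (h2 (some (b, i)) (some (b, k)) (by simpa using hik)).trans (hlow _ _ ?_)
    rw [preimage_union, hPf, hPf]
    rfl
  have hPPN : ∀ b i k, i ≠ k → P b i ∩ P b k ⊆ N := by
    intro b i k hik
    apply hNmax'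
    · rw [preimage_inter, hPf, hPf]
      ext a
      simp only [mem_inter_iff, mem_singleton_iff, mem_empty_iff_false, iff_false, not_and]
      intro h4 h5
      rw [h4] at h5
      simp only [Option.some.injEq, Prod.mk.injEq, true_and] at h5
      exact hik h5
    · have e1 := hsub (P b i) (P b k)
      have e2 := hPPge b i k hik
      have e3 := hPle b i
      have e4 := hPle b k
      linarith
  -- the point `Q`
  set Q : Set (Pt d ⊕ V) := Y (lineC false) ∩ Y (lineC true) with hQ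
  have hNQ : N ⊆ Q := subset_inter (hNY _) (hNY _)
  have hQf : Sum.inl ⁻¹' Q = (∅ : Set (Pt d)) := by
    rw [hQ, preimage_inter, hYf, hYf]
    ext a
    simp only [lineC, mem_inter_iff, mem_ofPred_eq, mem_empty_iff_false, iff_false, not_and,
      not_exists]
    rintro ⟨i, rfl⟩ k h4
    simp at h4
  have hQge : 0 ≤ H Q := by
    have := hle Q
    rwa [hQf, h0] at this
  have hQle : H Q ≤ 1 := by
    have e1 := hsub (Y (lineC false)) (Y (lineC true))
    have e2 := hYH (lineC false)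
    have e3 := hYH (lineC true)
    have e4 := hlow (Y (lineC false) ∪ Y (lineC true))
      (insert (some (false, ⟨0, hd0⟩)) (lineC true)) (by
        rw [preimage_union, hYf, hYf]
        rintro a (rfl | ha)
        · exact Or.inl ⟨_, rfl⟩
        · exact Or.inr ha)
    have e5 := h3C ⟨0, hd0⟩ false
    have e6 := hC false
    have e7 := hC true
    simp only [Bool.not_false] at e5
    linarith
  have hPQN : ∀ i, P true i ∩ Q ⊆ N := by
    intro i
    have e0 : P true i ∩ Q ⊆ P false i ∩ Y (lineC true) := by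
      rintro w ⟨⟨h4, h5⟩, h6, h7⟩
      exact ⟨⟨h4, h6⟩, h5⟩
    refine e0.trans (hNmax' _ ?_ ?_)
    · rw [preimage_inter, hPf, hYf]
      ext a
      simp only [lineC, mem_inter_iff, mem_singleton_iff, mem_ofPred_eq, mem_empty_iff_false,
        iff_false, not_and, not_exists]
      rintro rfl k h4
      simp at h4
    · have e1 := hsub (P false i) (Y (lineC true))
      have e2 := hYH (lineC true)
      have e3 := hC true
      have e4 := hlow (P false i ∪ Y (lineC true)) (insert (some (false, i)) (lineC true)) (by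
        rw [preimage_union, hPf, hYf]
        rfl)
      have e5 := h3C i false
      simp only [Bool.not_false] at e5
      have e6 := hPle false i
      linarith
  have hPQ : ∀ i, H (P true i) + H Q ≤ H (P true i ∪ Q) := by
    intro i
    by_contra hcon
    push Not at hcon
    rw [hPeq] at hcon
    have e1 : 1 ≤ H (P true i ∪ Q) := (h1 (some (true, i))).trans (hlow _ _ (by
      rw [preimage_union, hPf]; exact subset_union_left))
    have e2 : H Q = 1 := by omega
    have e3 : H (P true i ∪ Q) ≤ 1 := by omega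
    -- the enlarged representative of `R i`
    have e4 := hsub (Y (lineR i)) (P true i ∪ Q)
    have e5 : Y (lineR i) ∩ (P true i ∪ Q) = P true i := by
      ext w
      simp only [P, hQ, mem_inter_iff, mem_union]
      tauto
    have e6 : Y (lineR i) ∪ (P true i ∪ Q) = Y (lineR i) ∪ Q := by
      ext w
      simp only [P, hQ, mem_inter_iff, mem_union]
      tauto
    rw [e5, e6, hPeq] at e4
    have e7 := hYH (lineR i)
    have e8 := hR i
    have e9 : H (Y (lineR i) ∪ Q) ≤ 2 := by linarith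
    have e10 := hsub (Y (lineR i) ∪ Q) (Y (lineC false))
    have e11 := hlow ((Y (lineR i) ∪ Q) ∪ Y (lineC false)) (lineR i ∪ lineC false) (by
      rw [preimage_union, preimage_union, hYf, hYf, hQf, union_empty])
    have e12 := h3R i false
    have e13 := hYH (lineC false)
    have e14 := hC false
    have e15 : H ((Y (lineR i) ∪ Q) ∩ Y (lineC false)) ≤ 1 := by linarith
    have hf1 : Sum.inl ⁻¹' ((Y (lineR i) ∪ Q) ∩ Y (lineC false)) =
        ({some (false, i)} : Set (Pt d)) := by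
      rw [preimage_inter, preimage_union, hQf, union_empty, ← preimage_inter]
      exact hPf false i
    have e16 := hsub ((Y (lineR i) ∪ Q) ∩ Y (lineC false)) (Y (lineC true))
    have e17 := hlow (((Y (lineR i) ∪ Q) ∩ Y (lineC false)) ∪ Y (lineC true))
      (insert (some (false, i)) (lineC true)) (by
        rw [preimage_union, hf1, hYf]
        rfl)
    have e18 := h3C i false
    simp only [Bool.not_false] at e18
    have e19 := hYH (lineC true)
    have e20 := hC true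
    have e21 : ((Y (lineR i) ∪ Q) ∩ Y (lineC false)) ∩ Y (lineC true) ⊆ N := by
      apply hNmax'
      · rw [preimage_inter, hf1, hYf]
        ext a
        simp only [lineC, mem_inter_iff, mem_singleton_iff, mem_ofPred_eq, mem_empty_iff_false,
          iff_false, not_and, not_exists]
        rintro rfl k h4
        simp at h4
      · linarith
    have e22 : Q ⊆ N := by
      intro w hw
      apply e21
      refine ⟨⟨Or.inr hw, ?_⟩, ?_⟩
      · exact (hQ ▸ hw : w ∈ Y (lineC false) ∩ Y (lineC true)).1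
      · exact (hQ ▸ hw : w ∈ Y (lineC false) ∩ Y (lineC true)).2
    have e23 : Q = N := subset_antisymm e22 hNQ
    rw [e23, hN0] at e2
    omega
  -- apply the family lemma to both long lines
  have hNn : ∀ Z, 0 ≤ H Z := fun Z => by
    have := hlow Z ∅ (empty_subset _)
    rwa [h0] at this
  obtain ⟨Bad₁, T₁, hBad₁, hT₁, hfam₁⟩ := family (m := d) hg hHg hN0 (P false) (hNP false)
    (hPPN false) (fun a b hab => by
      have := hPPge false a b hab
      rw [hPeq, hPeq]; linarith) (by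
      simp only [hPeq]
      have := hNn (N ∪ ⋃ a ∈ (Finset.univ : Finset (Fin d)), P false a)
      rw [Finset.sum_const, Finset.card_univ, Fintype.card_fin, nsmul_eq_mul, mul_one]
      linarith)
  let P' : Option (Fin d) → Set (Pt d ⊕ V) := fun o => o.elim Q (P true)
  obtain ⟨Bad₂, T₂, hBad₂, hT₂, hfam₂⟩ := family (m := d + 1) hg hHg hN0 P'
    (by rintro (_ | i); exacts [hNQ, hNP true i])
    (by
      rintro (_ | i) (_ | k) hik
      · exact absurd rfl hik
      · show Q ∩ P true k ⊆ N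
        rw [inter_comm]
        exact hPQN k
      · exact hPQN i
      · exact hPPN true i k (fun h4 => hik (by rw [h4])))
    (by
      rintro (_ | i) (_ | k) hik
      · exact absurd rfl hik
      · show H Q + H (P true k) ≤ H (Q ∪ P true k)
        rw [add_comm, union_comm]
        exact hPQ k
      · exact hPQ i
      · show H (P true i) + H (P true k) ≤ H (P true i ∪ P true k)
        have := hPPge true i k (fun h4 => hik (by rw [h4]))
        rw [hPeq, hPeq]; linarith)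
    (by
      rw [Fintype.sum_option]
      have e1 : ∑ i, H (P' (some i)) = d := by
        have : ∀ i, H (P' (some i)) = 1 := fun i => hPeq true i
        simp [this]
      have e2 : H (P' none) ≤ 1 := hQle
      have := hNn (N ∪ ⋃ a ∈ (Finset.univ : Finset (Option (Fin d))), P' a)
      rw [e1]
      push_cast
      linarith)
  -- choose three rows
  obtain ⟨i₁, i₂, i₃, h12, h13, h23, hrows⟩ := choose_rows (s := s) hd (Bad₁.disjSum Bad₂)
    (Sum.elim T₁ fun j => Finset.univ.filter fun i => some i ∈ T₂ j)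
    (by rw [Finset.card_disjSum]; omega)
    (by
      rintro (j | j) _
      · exact hT₁ j
      · refine le_trans ?_ (hT₂ j)
        refine Finset.card_le_card_of_injOn some ?_ ?_
        · intro i hi
          simpa using hi
        · intro i _ k _ hik
          exact Option.some_injective _ hik)
  have hrows₁ : ∀ j ∈ Bad₁, ¬ (i₁ ∈ T₁ j ∧ i₂ ∈ T₁ j) ∧ ¬ (i₁ ∈ T₁ j ∧ i₃ ∈ T₁ j) ∧
      ¬ (i₂ ∈ T₁ j ∧ i₃ ∈ T₁ j) := fun j hj => hrows (Sum.inl j) (by simpa using hj)
  have hrows₂ : ∀ j ∈ Bad₂, ¬ (some i₁ ∈ T₂ j ∧ some i₂ ∈ T₂ j) ∧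
      ¬ (some i₁ ∈ T₂ j ∧ some i₃ ∈ T₂ j) ∧ ¬ (some i₂ ∈ T₂ j ∧ some i₃ ∈ T₂ j) := by
    intro j hj
    have := hrows (Sum.inr j) (by simpa using hj)
    simpa using this
  have hfin₁ := hfam₁ {i₁, i₂, i₃} (by
    intro j hj
    have h4 := hrows₁ j hj
    refine le_trans (Finset.card_le_one.2 ?_) (by norm_num)
    intro a ha b hb
    simp only [Finset.mem_inter, Finset.mem_insert, Finset.mem_singleton] at ha hb
    obtain ⟨ha, ha'⟩ := ha
    obtain ⟨hb, hb'⟩ := hb
    rcases ha with rfl | rfl | rfl <;> rcases hb with rfl | rfl | rfl <;> tauto)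
  have hfin₂ := hfam₂ {none, some i₁, some i₂, some i₃} (by
    intro j hj
    have h4 := hrows₂ j hj
    have h5 : ({none, some i₁, some i₂, some i₃} : Finset (Option (Fin d))) ∩ T₂ j ⊆
        insert none (({some i₁, some i₂, some i₃} : Finset (Option (Fin d))) ∩ T₂ j) := by
      intro a
      simp only [Finset.mem_inter, Finset.mem_insert, Finset.mem_singleton]
      tauto
    refine (Finset.card_le_card h5).trans ((Finset.card_insert_le _ _).trans ?_)
    have h6 : (({some i₁, some i₂, some i₃} : Finset (Option (Fin d))) ∩ T₂ j).card ≤ 1 := by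
      refine Finset.card_le_one.2 ?_
      intro a ha b hb
      simp only [Finset.mem_inter, Finset.mem_insert, Finset.mem_singleton] at ha hb
      obtain ⟨ha, ha'⟩ := ha
      obtain ⟨hb, hb'⟩ := hb
      rcases ha with rfl | rfl | rfl <;> rcases hb with rfl | rfl | rfl <;> tauto
    omega)
  rw [Finset.sum_insert (by simp [h12, h13]), Finset.sum_insert (by simp [h23]),
    Finset.sum_singleton, hPeq, hPeq, hPeq] at hfin₁
  rw [Finset.sum_insert (by simp), Finset.sum_insert (by simp [h12, h13]),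
    Finset.sum_insert (by simp [h23]), Finset.sum_singleton] at hfin₂
  have hfin₂' : H (N ∪ ⋃ a ∈ ({none, some i₁, some i₂, some i₃} : Finset (Option (Fin d))), P' a) =
      H Q + 3 := by
    rw [hfin₂]
    show H Q + (H (P true i₁) + (H (P true i₂) + H (P true i₃))) = _
    rw [hPeq, hPeq, hPeq]
    norm_num
  -- the chain of unions
  have u2 : H (Y (lineR i₁) ∪ Y (lineR i₂)) ≤ 3 := by
    have e1 := hsub (Y (lineR i₁)) (Y (lineR i₂))
    have e2 := hYH (lineR i₁)
    have e3 := hYH (lineR i₂)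
    have e4 := hR i₁
    have e5 := hR i₂
    have e6 := hlow (Y (lineR i₁) ∩ Y (lineR i₂)) {none} (by
      rw [preimage_inter, hYf, hYf]
      rintro a rfl
      exact ⟨Or.inl rfl, Or.inl rfl⟩)
    have e7 := h1 none
    linarith
  have u3 : H (Y (lineR i₁) ∪ Y (lineR i₂) ∪ Y (lineR i₃)) ≤ 4 := by
    have e1 := hsub (Y (lineR i₁) ∪ Y (lineR i₂)) (Y (lineR i₃))
    have e2 := hYH (lineR i₃)
    have e4 := hR i₃
    have e6 := hlow ((Y (lineR i₁) ∪ Y (lineR i₂)) ∩ Y (lineR i₃)) {none} (by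
      rw [preimage_inter, preimage_union, hYf, hYf, hYf]
      rintro a rfl
      exact ⟨Or.inl (Or.inl rfl), Or.inl rfl⟩)
    have e7 := h1 none
    linarith
  have u4 : H (Y (lineR i₁) ∪ Y (lineR i₂) ∪ Y (lineR i₃) ∪ Y (lineC false)) ≤ 3 := by
    have e1 := hsub (Y (lineR i₁) ∪ Y (lineR i₂) ∪ Y (lineR i₃)) (Y (lineC false))
    have e2 := hYH (lineC false)
    have e4 := hC false
    have e5 : (Y (lineR i₁) ∪ Y (lineR i₂) ∪ Y (lineR i₃)) ∩ Y (lineC false) =
        N ∪ ⋃ a ∈ ({i₁, i₂, i₃} : Finset (Fin d)), P false a := by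
      ext w
      simp only [mem_inter_iff, mem_union, mem_iUnion, Finset.mem_insert, Finset.mem_singleton, P]
      constructor
      · rintro ⟨(h4 | h4) | h4, h5⟩
        · exact Or.inr ⟨i₁, Or.inl rfl, h4, h5⟩
        · exact Or.inr ⟨i₂, Or.inr (Or.inl rfl), h4, h5⟩
        · exact Or.inr ⟨i₃, Or.inr (Or.inr rfl), h4, h5⟩
      · rintro (h4 | ⟨a, (rfl | rfl | rfl), h4, h5⟩)
        · exact ⟨Or.inl (Or.inl (hNY _ h4)), hNY _ h4⟩
        · exact ⟨Or.inl (Or.inl h4), h5⟩
        · exact ⟨Or.inl (Or.inr h4), h5⟩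
        · exact ⟨Or.inr h4, h5⟩
    rw [e5, hfin₁] at e1
    linarith
  have e1 := hsub (Y (lineR i₁) ∪ Y (lineR i₂) ∪ Y (lineR i₃) ∪ Y (lineC false)) (Y (lineC true))
  have e2 := hYH (lineC true)
  have e4 := hC true
  have e5 : (Y (lineR i₁) ∪ Y (lineR i₂) ∪ Y (lineR i₃) ∪ Y (lineC false)) ∩ Y (lineC true) =
      N ∪ ⋃ a ∈ ({none, some i₁, some i₂, some i₃} : Finset (Option (Fin d))), P' a := by
    ext w
    simp only [mem_inter_iff, mem_union, mem_iUnion, Finset.mem_insert, Finset.mem_singleton]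
    constructor
    · rintro ⟨((h4 | h4) | h4) | h4, h5⟩
      · exact Or.inr ⟨some i₁, Or.inr (Or.inl rfl), h4, h5⟩
      · exact Or.inr ⟨some i₂, Or.inr (Or.inr (Or.inl rfl)), h4, h5⟩
      · exact Or.inr ⟨some i₃, Or.inr (Or.inr (Or.inr rfl)), h4, h5⟩
      · exact Or.inr ⟨none, Or.inl rfl, h4, h5⟩
    · rintro (h4 | ⟨a, (rfl | rfl | rfl | rfl), h4, h5⟩)
      · exact ⟨Or.inl (Or.inl (Or.inl (hNY _ h4))), hNY _ h4⟩
      · exact ⟨Or.inr h4, h5⟩
      · exact ⟨Or.inl (Or.inl (Or.inl h4)), h5⟩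
      · exact ⟨Or.inl (Or.inl (Or.inr h4)), h5⟩
      · exact ⟨Or.inl (Or.inr h4), h5⟩
  rw [e5, hfin₂'] at e1
  have e6 := hlow (Y (lineR i₁) ∪ Y (lineR i₂) ∪ Y (lineR i₃) ∪ Y (lineC false) ∪ Y (lineC true))
    (lineR i₁ ∪ lineC false) (by
      simp only [preimage_union, hYf]
      intro a ha
      rcases ha with h4 | h4
      · exact Or.inl (Or.inl (Or.inl (Or.inl h4)))
      · exact Or.inl (Or.inr h4))
  have e7 := h3R i₁ false
  linarith

end PoolH51.BO
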