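import Mathlib
import Pool.Agent.H51.BO.Contra
import Pool.Agent.H51.BO.Rank

open Set Matroid

namespace PoolH51.BO

variable {d : ℕ}

/-- all lines with at least three points -/
def line : Bool ⊕ Fin d → Set (Pt d) := Sum.elim lineC lineR

lemma mem_line_inl {b : Bool} {a : Pt d} : a ∈ line (Sum.inl b) ↔ ∃ i, a = some (b, i) := Iff.rfl

lemma mem_line_inr {i : Fin d} {a : Pt d} :
    a ∈ line (Sum.inr i) ↔ a = none ∨ ∃ b, a = some (b, i) := Iff.rfl

lemma line_unique {a c : Pt d} (hac : a ≠ c) {l l' : Bool ⊕ Fin d} (h1 : a ∈ line l)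
    (h2 : c ∈ line l) (h3 : a ∈ line l') (h4 : c ∈ line l') : l = l' := by
  rcases l with b | i <;> rcases l' with b' | i' <;>
    simp only [mem_line_inl, mem_line_inr] at h1 h2 h3 h4
  · obtain ⟨i, rfl⟩ := h1
    obtain ⟨i', h3⟩ := h3
    simp only [Option.some.injEq, Prod.mk.injEq] at h3
    rw [h3.1]
  · exfalso
    obtain ⟨i, rfl⟩ := h1
    obtain ⟨k, rfl⟩ := h2
    simp only [reduceCtorEq, false_or, Option.some.injEq, Prod.mk.injEq, exists_and_right] at h3 h4
    apply hac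
    rw [h3.2, h4.2]
  · exfalso
    obtain ⟨j, rfl⟩ := h3
    obtain ⟨k, rfl⟩ := h4
    simp only [reduceCtorEq, false_or, Option.some.injEq, Prod.mk.injEq, exists_and_right] at h1 h2
    apply hac
    rw [h1.2, h2.2]
  · rcases a with _ | ⟨x, y⟩
    · rcases c with _ | ⟨x', y'⟩
      · exact absurd rfl hac
      · simp only [reduceCtorEq, false_or, Option.some.injEq, Prod.mk.injEq, exists_and_right]
          at h2 h4
        rw [← h2.2, ← h4.2]
    · simp only [reduceCtorEq, false_or, Option.some.injEq, Prod.mk.injEq, exists_and_right]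
        at h1 h3
      rw [← h1.2, ← h3.2]

lemma line_CC {a : Pt d} {b b' : Bool} (h1 : a ∈ line (Sum.inl b)) (h2 : a ∈ line (Sum.inl b')) :
    b = b' := by
  rw [mem_line_inl] at h1 h2
  obtain ⟨i, rfl⟩ := h1
  obtain ⟨i', h3⟩ := h2
  simp only [Option.some.injEq, Prod.mk.injEq] at h3
  exact h3.1

lemma line_RR {a : Pt d} {i i' : Fin d} (h : i ≠ i') (h1 : a ∈ line (Sum.inr i))
    (h2 : a ∈ line (Sum.inr i')) : a = none := by
  rw [mem_line_inr] at h1 h2
  rcases a with _ | ⟨x, y⟩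
  · rfl
  · exfalso
    simp only [reduceCtorEq, false_or, Option.some.injEq, Prod.mk.injEq, exists_and_right] at h1 h2
    exact h (h1.2.symm.trans h2.2)

/-- the independent sets of the rank three matroid -/
def MdIndep (I : Set (Pt d)) : Prop := I.ncard ≤ 3 ∧ (I.ncard = 3 → ∀ l, ¬ I ⊆ line l)

lemma mdIndep_subset {I J : Set (Pt d)} (hJ : MdIndep J) (h : I ⊆ J) : MdIndep I := by
  have h1 := ncard_le_ncard h (toFinite _)
  refine ⟨h1.trans hJ.1, fun h2 l hl => ?_⟩
  have h3 : I = J := eq_of_subset_of_ncard_le h (by have := hJ.1; omega)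
  rw [h3] at h2 hl
  exact hJ.2 h2 l hl

lemma mdIndep_aug {I J : Set (Pt d)} (hI : MdIndep I) (hJ : MdIndep J)
    (h : I.ncard < J.ncard) : ∃ e ∈ J, e ∉ I ∧ MdIndep (insert e I) := by
  by_cases h2 : I.ncard ≤ 1
  · obtain ⟨e, he, he'⟩ := exists_mem_notMem_of_ncard_lt_ncard h
    refine ⟨e, he, he', ?_, ?_⟩
    · rw [ncard_insert_of_notMem he']; omega
    · rw [ncard_insert_of_notMem he']; omega
  · have h3 : I.ncard = 2 := by have := hJ.1; omega
    have h4 : J.ncard = 3 := by have := hJ.1; omega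
    by_contra hcon
    push Not at hcon
    have h5 : ∀ e ∈ J, e ∉ I → ∃ l, insert e I ⊆ line l := by
      intro e he he'
      by_contra h6
      push Not at h6
      apply hcon e he he'
      refine ⟨by rw [ncard_insert_of_notMem he']; omega, fun _ => h6⟩
    obtain ⟨e, he, he'⟩ := exists_mem_notMem_of_ncard_lt_ncard h
    obtain ⟨l, hl⟩ := h5 e he he'
    obtain ⟨a, b, hab, rfl⟩ := ncard_eq_two.1 h3
    apply hJ.2 h4 l
    intro f hf
    by_cases hf' : f ∈ ({a, b} : Set (Pt d))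
    · exact hl (Or.inr hf')
    · obtain ⟨l', hl'⟩ := h5 f hf hf'
      have : l = l' := line_unique hab (hl (by simp)) (hl (by simp)) (hl' (by simp)) (hl' (by simp))
      rw [this]
      exact hl' (Or.inl rfl)

/-- The matroid. -/
def Md (d : ℕ) : Matroid (Pt d) :=
  (IndepMatroid.ofFinite (E := (univ : Set (Pt d))) (toFinite _) MdIndep
    ⟨by simp, by simp⟩ (fun _ _ h1 h2 => mdIndep_subset h1 h2)
    (fun _ _ h1 h2 h3 => mdIndep_aug h1 h2 h3) (fun _ _ => subset_univ _)).matroid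

lemma md_indep {I : Set (Pt d)} : (Md d).Indep I ↔ MdIndep I := Iff.rfl

lemma md_ground : (Md d).E = univ := rfl

lemma md_isBase_of {B : Set (Pt d)} (h1 : MdIndep B) (h2 : B.ncard = 3) : (Md d).IsBase B := by
  rw [isBase_iff_maximal_indep]
  refine ⟨md_indep.2 h1, fun C hC hBC => ?_⟩
  have h3 := (md_indep.1 hC).1
  have h4 : B = C := eq_of_subset_of_ncard_le hBC (by omega)
  rw [h4]

lemma md_indep_pair (a b : Pt d) : MdIndep ({a, b} : Set (Pt d)) := by
  have h := ncard_insert_le a ({b} : Set (Pt d))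
  rw [ncard_singleton] at h
  exact ⟨by omega, by omega⟩

/-- three non collinear points -/
def Tri (a b c : Pt d) : Prop := a ≠ b ∧ a ≠ c ∧ b ≠ c ∧ ∀ l, ¬ (a ∈ line l ∧ b ∈ line l ∧ c ∈ line l)

lemma Tri.indep {a b c : Pt d} (h : Tri a b c) : MdIndep ({a, b, c} : Set (Pt d)) := by
  obtain ⟨h1, h2, h3, h4⟩ := h
  have h5 : ({a, b, c} : Set (Pt d)).ncard = 3 := ncard_eq_three.2 ⟨a, b, c, h1, h2, h3, rfl⟩
  refine ⟨h5.le, fun _ l hl => h4 l ⟨hl (by simp), hl (by simp), hl (by simp)⟩⟩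

lemma Tri.isBase {a b c : Pt d} (h : Tri a b c) : (Md d).IsBase {a, b, c} :=
  md_isBase_of h.indep (ncard_eq_three.2 ⟨a, b, c, h.1, h.2.1, h.2.2.1, rfl⟩)

lemma tri_of_indep {a b c : Pt d} (h1 : a ≠ b) (h2 : a ≠ c) (h3 : b ≠ c)
    (h : MdIndep ({a, b, c} : Set (Pt d))) : Tri a b c := by
  refine ⟨h1, h2, h3, ?_⟩
  rintro l ⟨h4, h5, h6⟩
  apply h.2 (ncard_eq_three.2 ⟨a, b, c, h1, h2, h3, rfl⟩) l
  rintro x (rfl | rfl | rfl) <;> assumption

lemma exists_tri (hd : 2 ≤ d) : ∃ a b c : Pt d, Tri a b c := by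
  refine ⟨none, some (false, ⟨0, by omega⟩), some (false, ⟨1, by omega⟩), by simp, by simp,
    by simp, ?_⟩
  rintro (b | i) ⟨h1, h2, h3⟩
  · rw [mem_line_inl] at h1
    simp at h1
  · rw [mem_line_inr] at h2 h3
    simp only [reduceCtorEq, false_or, Option.some.injEq, Prod.mk.injEq, exists_and_right] at h2 h3
    have := h2.2.trans h3.2.symm
    simp at this

lemma md_isBase_iff (hd : 2 ≤ d) {B : Set (Pt d)} :
    (Md d).IsBase B ↔ MdIndep B ∧ B.ncard = 3 := by
  constructor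
  · intro h
    obtain ⟨a, b, c, ht⟩ := exists_tri hd
    have h1 := h.ncard_eq_ncard_of_isBase ht.isBase
    refine ⟨md_indep.1 h.indep, ?_⟩
    rw [h1]
    exact ncard_eq_three.2 ⟨a, b, c, ht.1, ht.2.1, ht.2.2.1, rfl⟩
  · rintro ⟨h1, h2⟩
    exact md_isBase_of h1 h2

end PoolH51.BO
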