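import Mathlib
import Pool.Agent.H51.BO.Md

open Set Matroid

namespace PoolH51.BO

variable {d : ℕ}

lemma md_finite : (Md d).E.Finite := toFinite _

lemma rk_line_le (l : Bool ⊕ Fin d) : rk (Md d) (line l) ≤ 2 := by
  have : rk (Md d) (line l) ≤ ((2 : ℕ) : ℤ) := by
    rw [rk_le_iff md_finite]
    intro I hI hI'
    rw [md_indep] at hI'
    by_contra h
    exact hI'.2 (by have := hI'.1; omega) l hI
  exact_mod_cast this

lemma rk_ge_of_tri {a b c : Pt d} (h : Tri a b c) {X : Set (Pt d)} (ha : a ∈ X) (hb : b ∈ X)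
    (hc : c ∈ X) : 3 ≤ rk (Md d) X := by
  have : ((3 : ℕ) : ℤ) ≤ rk (Md d) X := by
    rw [le_rk_iff md_finite]
    refine ⟨{a, b, c}, ?_, md_indep.2 h.indep,
      ncard_eq_three.2 ⟨a, b, c, h.1, h.2.1, h.2.2.1, rfl⟩⟩
    rintro x (rfl | rfl | rfl) <;> assumption
  exact_mod_cast this

lemma md_not_expr {s : ℕ} (hd : 3 * (1 + 3 * s ^ 2) < d) : ¬ Expr s (rk (Md d)) := by
  refine not_expr hd (fun A B h => rk_mono md_finite h) ?_ (fun i => rk_line_le (Sum.inr i))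
    (fun b => rk_line_le (Sum.inl b)) ?_ ?_ ?_ ?_
  · have h1 : rk (Md d) ∅ ≤ ((0 : ℕ) : ℤ) := by
      rw [rk_le_iff md_finite]
      intro I hI _
      rw [subset_empty_iff.1 hI]
      simp
    have h2 := rk_nonneg (Md d) ∅
    push_cast at h1
    omega
  · intro a
    have : ((1 : ℕ) : ℤ) ≤ rk (Md d) {a} := by
      rw [le_rk_iff md_finite]
      exact ⟨{a}, subset_rfl, md_indep.2 (mdIndep_subset (md_indep_pair a a) (by simp)), by simp⟩
    exact_mod_cast this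
  · intro a b hab
    have : ((2 : ℕ) : ℤ) ≤ rk (Md d) {a, b} := by
      rw [le_rk_iff md_finite]
      exact ⟨{a, b}, subset_rfl, md_indep.2 (md_indep_pair a b), ncard_pair hab⟩
    exact_mod_cast this
  · intro i b
    obtain ⟨k, hk⟩ : ∃ k : Fin d, k ≠ i := by
      have : Nontrivial (Fin d) := Fin.nontrivial_iff_two_le.2 (by omega)
      exact exists_ne i
    refine rk_ge_of_tri (a := none) (b := some (b, i)) (c := some (b, k))
      ⟨by simp, by simp, by simpa using hk.symm, ?_⟩ (Or.inl (Or.inl rfl)) (Or.inr ⟨i, rfl⟩)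
      (Or.inr ⟨k, rfl⟩)
    rintro (b' | j) ⟨h1, h2, h3⟩
    · rw [mem_line_inl] at h1
      simp at h1
    · rw [mem_line_inr] at h2 h3
      simp only [reduceCtorEq, false_or, Option.some.injEq, Prod.mk.injEq, exists_and_right]
        at h2 h3
      exact hk (h3.2.trans h2.2.symm)
  · intro i b
    refine rk_ge_of_tri (a := some (b, i)) (b := some (!b, ⟨0, by omega⟩))
      (c := some (!b, ⟨1, by omega⟩))
      ⟨by cases b <;> simp, by cases b <;> simp, by simp, ?_⟩ (Or.inl rfl) (Or.inr ⟨_, rfl⟩)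
      (Or.inr ⟨_, rfl⟩)
    rintro (b' | j) ⟨h1, h2, h3⟩
    · rw [mem_line_inl] at h1 h2
      simp only [Option.some.injEq, Prod.mk.injEq, exists_and_left] at h1 h2
      have := h1.1.trans h2.1.symm
      cases b <;> simp at this
    · rw [mem_line_inr] at h2 h3
      simp only [reduceCtorEq, false_or, Option.some.injEq, Prod.mk.injEq, exists_and_right]
        at h2 h3
      have := h2.2.trans h3.2.symm
      simp at this

/-! ### Strong base orderability -/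

lemma good_of_enum {u₀ u₁ u₂ v₀ v₁ v₂ : Pt d}
    (h : ∀ w₀ w₁ w₂, (w₀ = u₀ ∨ w₀ = v₀) → (w₁ = u₁ ∨ w₁ = v₁) → (w₂ = u₂ ∨ w₂ = v₂) →
      Tri w₀ w₁ w₂) :
    ∃ φ : Pt d → Pt d, BijOn φ {u₀, u₁, u₂} {v₀, v₁, v₂} ∧
      ∀ X ⊆ ({u₀, u₁, u₂} : Set (Pt d)), (Md d).IsBase (({u₀, u₁, u₂} \ X) ∪ φ '' X) := by
  classical
  have hu := h u₀ u₁ u₂ (Or.inl rfl) (Or.inl rfl) (Or.inl rfl)
  have hv := h v₀ v₁ v₂ (Or.inr rfl) (Or.inr rfl) (Or.inr rfl)
  let φ : Pt d → Pt d := fun x => if x = u₀ then v₀ else if x = u₁ then v₁ else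
    if x = u₂ then v₂ else x
  have h0 : φ u₀ = v₀ := by simp [φ]
  have h1 : φ u₁ = v₁ := by simp [φ, hu.1.symm]
  have h2 : φ u₂ = v₂ := by simp [φ, hu.2.1.symm, hu.2.2.1.symm]
  refine ⟨φ, ⟨?_, ?_, ?_⟩, ?_⟩
  · rintro x (rfl | rfl | rfl)
    · rw [h0]; simp
    · rw [h1]; simp
    · rw [h2]; simp
  · rintro x (rfl | rfl | rfl) y (rfl | rfl | rfl) hxy <;>
      simp only [h0, h1, h2] at hxy
    · rfl
    · exact absurd hxy hv.1
    · exact absurd hxy hv.2.1
    · exact absurd hxy hv.1.symm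
    · rfl
    · exact absurd hxy hv.2.2.1
    · exact absurd hxy hv.2.1.symm
    · exact absurd hxy hv.2.2.1.symm
    · rfl
  · rintro x (rfl | rfl | rfl)
    · exact ⟨u₀, by simp, h0⟩
    · exact ⟨u₁, by simp, h1⟩
    · exact ⟨u₂, by simp, h2⟩
  · intro X hX
    have key : (({u₀, u₁, u₂} : Set (Pt d)) \ X) ∪ φ '' X =
        {(if u₀ ∈ X then v₀ else u₀), (if u₁ ∈ X then v₁ else u₁), (if u₂ ∈ X then v₂ else u₂)} := by
      ext x
      constructor
      · rintro (⟨hx | hx | hx, hx'⟩ | ⟨y, hy, rfl⟩)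
        · subst hx; simp [hx']
        · subst hx; simp [hx']
        · rw [mem_singleton_iff] at hx
          subst hx; simp [hx']
        · rcases hX hy with h3 | h3 | h3
          · rw [h3, h0]; rw [h3] at hy; simp [hy]
          · rw [h3, h1]; rw [h3] at hy; simp [hy]
          · rw [mem_singleton_iff] at h3
            rw [h3, h2]; rw [h3] at hy; simp [hy]
      · rintro (hx | hx | hx)
        · split_ifs at hx with h3
          · rw [hx]; right; exact ⟨u₀, h3, h0⟩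
          · rw [hx]; left; exact ⟨by simp, h3⟩
        · split_ifs at hx with h3
          · rw [hx]; right; exact ⟨u₁, h3, h1⟩
          · rw [hx]; left; exact ⟨by simp, h3⟩
        · rw [mem_singleton_iff] at hx
          split_ifs at hx with h3
          · rw [hx]; right; exact ⟨u₂, h3, h2⟩
          · rw [hx]; left; exact ⟨by simp, h3⟩
    rw [key]
    apply Tri.isBase
    apply h
    · split_ifs
      · exact Or.inr rfl
      · exact Or.inl rfl
    · split_ifs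
      · exact Or.inr rfl
      · exact Or.inl rfl
    · split_ifs
      · exact Or.inr rfl
      · exact Or.inl rfl

/-- the bipartite matching fact used below -/
lemma konig : ∀ c00 c01 c02 c10 c11 c12 c20 c21 c22 : Bool,
    (c00 || c11 || c22) → (c00 || c12 || c21) → (c01 || c10 || c22) → (c01 || c12 || c20) →
    (c02 || c10 || c21) → (c02 || c11 || c20) →
    (c00 && c01 && c02) || (c10 && c11 && c12) || (c20 && c21 && c22) ||
    (c00 && c10 && c20) || (c01 && c11 && c21) || (c02 && c12 && c22) ||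
    (c00 && c01 && c10 && c11) || (c00 && c02 && c10 && c12) || (c01 && c02 && c11 && c12) ||
    (c00 && c01 && c20 && c21) || (c00 && c02 && c20 && c22) || (c01 && c02 && c21 && c22) ||
    (c10 && c11 && c20 && c21) || (c10 && c12 && c20 && c22) || (c11 && c12 && c21 && c22) := by
  decide

/-- `v j` lies on a line through the two points `u k`, `k ≠ i` -/
def AA (u v : Fin 3 → Pt d) (i j : Fin 3) : Prop :=
  ∃ l, (∀ k, k ≠ i → u k ∈ line l) ∧ v j ∈ line l

lemma third : ∀ i i' : Fin 3, ∃ k, k ≠ i ∧ k ≠ i' := by decide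

lemma two_others : ∀ i : Fin 3, ∃ k k', k ≠ i ∧ k' ≠ i ∧ k ≠ k' := by decide

lemma AA_unique {u v : Fin 3 → Pt d} (huv : ∀ i j, u i ≠ v j)
    (hu : ∀ l, ¬ ∀ k, u k ∈ line l) {i i' j : Fin 3} (hi : i ≠ i') (h : AA u v i j)
    (h' : AA u v i' j) : False := by
  obtain ⟨l, h1, h2⟩ := h
  obtain ⟨l', h1', h2'⟩ := h'
  obtain ⟨k, hk, hk'⟩ := third i i'
  have h3 := line_unique (huv k j) (h1 k hk) h2 (h1' k hk') h2'
  subst h3
  apply hu l
  intro m
  by_cases hm : m = i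
  · exact h1' m (by rw [hm]; exact hi)
  · exact h1 m hm

lemma row_false {u v : Fin 3 → Pt d} (huinj : Function.Injective u) (hvinj : Function.Injective v)
    (huv : ∀ i j, u i ≠ v j) (hu : ∀ l, ¬ ∀ k, u k ∈ line l) (hv : ∀ l, ¬ ∀ k, v k ∈ line l)
    {i : Fin 3} (h : ∀ j, AA u v i j ∨ AA v u j i) : False := by
  -- two different points `u k`, `k ≠ i`
  obtain ⟨k, k', hk, hk', hkk⟩ := two_others i
  by_cases hall : ∀ j, AA u v i j
  · obtain ⟨l, h1, h2⟩ := hall 0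
    apply hv l
    intro j
    obtain ⟨l', h1', h2'⟩ := hall j
    have := line_unique (huinj.ne hkk) (h1 k hk) (h1 k' hk') (h1' k hk) (h1' k' hk')
    rw [this]
    exact h2'
  · push Not at hall
    obtain ⟨j₀, hj₀⟩ := hall
    have hB := (h j₀).resolve_left hj₀
    have hA : ∀ j, j ≠ j₀ → AA u v i j := by
      intro j hj
      rcases h j with h1 | h1
      · exact h1
      · exact (AA_unique (fun a b => (huv b a).symm) hv hj h1 hB).elim
    obtain ⟨j, j', hj, hj', hjj⟩ := two_others j₀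
    obtain ⟨l, h1, h2⟩ := hA j hj
    obtain ⟨l', h1', h2'⟩ := hA j' hj'
    have e1 := line_unique (huinj.ne hkk) (h1 k hk) (h1 k' hk') (h1' k hk) (h1' k' hk')
    subst e1
    obtain ⟨m, h3, h4⟩ := hB
    have e2 := line_unique (hvinj.ne hjj) h2 h2' (h3 j hj) (h3 j' hj')
    subst e2
    apply hu l
    intro n
    by_cases hn : n = i
    · rw [hn]; exact h4
    · exact h1 n hn

/-- there is no complete quadrilateral -/
lemma no_quad {l₁ l₂ l₃ l₄ : Bool ⊕ Fin d} (h12 : l₁ ≠ l₂) (h13 : l₁ ≠ l₃) (h14 : l₁ ≠ l₄)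
    (h23 : l₂ ≠ l₃) (h24 : l₂ ≠ l₄) (h34 : l₃ ≠ l₄) {a b c e f g : Pt d}
    (ha : a ∈ line l₁ ∧ a ∈ line l₂) (hb : b ∈ line l₁ ∧ b ∈ line l₃)
    (hc : c ∈ line l₁ ∧ c ∈ line l₄) (he : e ∈ line l₂ ∧ e ∈ line l₃)
    (hf : f ∈ line l₂ ∧ f ∈ line l₄) (hg : g ∈ line l₃ ∧ g ∈ line l₄)
    (hab : a ≠ b) (hac : a ≠ c) (hbc : b ≠ c) (hef : e ≠ f) : False := by
  have CC : ∀ {b b' : Bool} {x : Pt d}, x ∈ line (Sum.inl b) ∧ x ∈ line (Sum.inl b') →
      (Sum.inl b : Bool ⊕ Fin d) ≠ Sum.inl b' → False :=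
    fun h h' => h' (by rw [line_CC h.1 h.2])
  have RR : ∀ {i i' : Fin d} {x : Pt d}, x ∈ line (Sum.inr i) ∧ x ∈ line (Sum.inr i') →
      (Sum.inr i : Bool ⊕ Fin d) ≠ Sum.inr i' → x = none :=
    fun h h' => line_RR (fun h'' => h' (by rw [h''])) h.1 h.2
  rcases l₁ with b₁ | i₁ <;> rcases l₂ with b₂ | i₂ <;> rcases l₃ with b₃ | i₃ <;>
    rcases l₄ with b₄ | i₄
  all_goals first
    | exact CC ha h12
    | exact CC hb h13
    | exact CC hc h14
    | exact CC he h23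
    | exact CC hf h24
    | exact CC hg h34
    | exact hab ((RR ha h12).trans (RR hb h13).symm)
    | exact hac ((RR ha h12).trans (RR hc h14).symm)
    | exact hbc ((RR hb h13).trans (RR hc h14).symm)
    | exact hef ((RR he h23).trans (RR hf h24).symm)

lemma block_aux {u v : Fin 3 → Pt d} (huinj : Function.Injective u)
    (hvinj : Function.Injective v) (huv : ∀ i j, u i ≠ v j) (hu : ∀ l, ¬ ∀ k, u k ∈ line l)
    (hv : ∀ l, ¬ ∀ k, v k ∈ line l) {i i' j j' : Fin 3} (hi : i ≠ i') (hj : j ≠ j')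
    (h1 : AA u v i j) (h2 : AA u v i' j') (h3 : AA v u j' i) (h4 : AA v u j i') : False := by
  obtain ⟨l₁, h1, h1'⟩ := h1
  obtain ⟨l₂, h2, h2'⟩ := h2
  obtain ⟨l₃, h3, h3'⟩ := h3
  obtain ⟨l₄, h4, h4'⟩ := h4
  obtain ⟨k, hk, hk'⟩ := third i i'
  obtain ⟨m, hm, hm'⟩ := third j j'
  have c1 : ∀ l, (∀ k, k ≠ i → u k ∈ line l) → u i ∈ line l → False := by
    intro l ha hb
    apply hu l
    intro n
    by_cases hn : n = i
    · rw [hn]; exact hb
    · exact ha n hn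
  have c2 : ∀ l, (∀ k, k ≠ i' → u k ∈ line l) → u i' ∈ line l → False := by
    intro l ha hb
    apply hu l
    intro n
    by_cases hn : n = i'
    · rw [hn]; exact hb
    · exact ha n hn
  have c3 : ∀ l, (∀ k, k ≠ j → v k ∈ line l) → v j ∈ line l → False := by
    intro l ha hb
    apply hv l
    intro n
    by_cases hn : n = j
    · rw [hn]; exact hb
    · exact ha n hn
  have c4 : ∀ l, (∀ k, k ≠ j' → v k ∈ line l) → v j' ∈ line l → False := by
    intro l ha hb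
    apply hv l
    intro n
    by_cases hn : n = j'
    · rw [hn]; exact hb
    · exact ha n hn
  refine no_quad (l₁ := l₁) (l₂ := l₂) (l₃ := l₃) (l₄ := l₄) (a := u k) (b := v j) (c := u i')
    (e := u i) (f := v j') (g := v m) ?_ ?_ ?_ ?_ ?_ ?_ ⟨h1 k hk, h2 k hk'⟩ ⟨h1', h3 j hj⟩
    ⟨h1 i' hi.symm, h4'⟩ ⟨h2 i hi, h3'⟩ ⟨h2', h4 j' hj.symm⟩ ⟨h3 m hm', h4 m hm⟩
    (huv _ _) (huinj.ne hk') (huv _ _).symm (huv _ _)
  · rintro rfl
    exact c1 _ h1 (h2 i hi)
  · rintro rfl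
    exact c1 _ h1 h3'
  · rintro rfl
    exact c3 _ h4 h1'
  · rintro rfl
    exact c4 _ h3 h2'
  · rintro rfl
    exact c2 _ h2 h4'
  · rintro rfl
    exact c3 _ h4 (h3 j hj)

lemma block_false {u v : Fin 3 → Pt d} (huinj : Function.Injective u)
    (hvinj : Function.Injective v) (huv : ∀ i j, u i ≠ v j) (hu : ∀ l, ¬ ∀ k, u k ∈ line l)
    (hv : ∀ l, ¬ ∀ k, v k ∈ line l) {i i' j j' : Fin 3} (hi : i ≠ i') (hj : j ≠ j')
    (h1 : AA u v i j ∨ AA v u j i) (h2 : AA u v i j' ∨ AA v u j' i)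
    (h3 : AA u v i' j ∨ AA v u j i') (h4 : AA u v i' j' ∨ AA v u j' i') : False := by
  have huv' : ∀ i j, v i ≠ u j := fun a b => (huv b a).symm
  rcases h1 with h1 | h1 <;> rcases h2 with h2 | h2 <;> rcases h3 with h3 | h3 <;>
    rcases h4 with h4 | h4
  all_goals first
    | exact AA_unique huv hu hi h1 h3
    | exact AA_unique huv hu hi h2 h4
    | exact AA_unique huv' hv hj h1 h2
    | exact AA_unique huv' hv hj h3 h4
    | exact block_aux huinj hvinj huv hu hv hi hj h1 h4 h2 h3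
    | exact block_aux huinj hvinj huv hu hv hi hj.symm h2 h3 h1 h4

lemma exists_matching {u v : Fin 3 → Pt d} (huinj : Function.Injective u)
    (hvinj : Function.Injective v) (huv : ∀ i j, u i ≠ v j) (hu : ∀ l, ¬ ∀ k, u k ∈ line l)
    (hv : ∀ l, ¬ ∀ k, v k ∈ line l) :
    ∃ σ : Fin 3 → Fin 3, Function.Bijective σ ∧ ∀ i, ¬ (AA u v i (σ i) ∨ AA v u (σ i) i) := by
  classical
  by_contra hcon
  push Not at hcon
  have huv' : ∀ i j, v i ≠ u j := fun a b => (huv b a).symm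
  set C : Fin 3 → Fin 3 → Prop := fun i j => AA u v i j ∨ AA v u j i with hC
  have hperm : ∀ a b c : Fin 3, Function.Bijective ![a, b, c] → C 0 a ∨ C 1 b ∨ C 2 c := by
    intro a b c hbij
    obtain ⟨i, hi⟩ := hcon _ hbij
    fin_cases i
    · exact Or.inl hi
    · exact Or.inr (Or.inl hi)
    · exact Or.inr (Or.inr hi)
  have k1 := hperm 0 1 2 (by decide)
  have k2 := hperm 0 2 1 (by decide)
  have k3 := hperm 1 0 2 (by decide)
  have k4 := hperm 1 2 0 (by decide)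
  have k5 := hperm 2 0 1 (by decide)
  have k6 := hperm 2 1 0 (by decide)
  have rowf : ∀ i, ¬ (C i 0 ∧ C i 1 ∧ C i 2) := by
    rintro i ⟨a, b, c⟩
    refine row_false huinj hvinj huv hu hv (i := i) (fun j => ?_)
    fin_cases j
    exacts [a, b, c]
  have colf : ∀ j, ¬ (C 0 j ∧ C 1 j ∧ C 2 j) := by
    rintro j ⟨a, b, c⟩
    refine row_false hvinj huinj huv' hv hu (i := j) (fun i => ?_)
    fin_cases i
    exacts [a.symm, b.symm, c.symm]
  have blf : ∀ i i' j j', i ≠ i' → j ≠ j' → ¬ (C i j ∧ C i j' ∧ C i' j ∧ C i' j') := by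
    rintro i i' j j' hi hj ⟨a, b, c, e⟩
    exact block_false huinj hvinj huv hu hv hi hj a b c e
  have hk := konig (decide (C 0 0)) (decide (C 0 1)) (decide (C 0 2)) (decide (C 1 0))
    (decide (C 1 1)) (decide (C 1 2)) (decide (C 2 0)) (decide (C 2 1)) (decide (C 2 2))
    (by simpa [or_assoc] using k1) (by simpa [or_assoc] using k2) (by simpa [or_assoc] using k3)
    (by simpa [or_assoc] using k4) (by simpa [or_assoc] using k5) (by simpa [or_assoc] using k6)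
  simp only [Bool.or_eq_true, Bool.and_eq_true, decide_eq_true_eq] at hk
  rcases hk with (((((((((((((hk | hk) | hk) | hk) | hk) | hk) | hk) | hk) | hk) | hk) | hk) | hk) | hk) | hk) | hk
  · exact rowf 0 ⟨hk.1.1, hk.1.2, hk.2⟩
  · exact rowf 1 ⟨hk.1.1, hk.1.2, hk.2⟩
  · exact rowf 2 ⟨hk.1.1, hk.1.2, hk.2⟩
  · exact colf 0 ⟨hk.1.1, hk.1.2, hk.2⟩
  · exact colf 1 ⟨hk.1.1, hk.1.2, hk.2⟩
  · exact colf 2 ⟨hk.1.1, hk.1.2, hk.2⟩
  · exact blf 0 1 0 1 (by decide) (by decide) ⟨hk.1.1.1, hk.1.1.2, hk.1.2, hk.2⟩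
  · exact blf 0 1 0 2 (by decide) (by decide) ⟨hk.1.1.1, hk.1.1.2, hk.1.2, hk.2⟩
  · exact blf 0 1 1 2 (by decide) (by decide) ⟨hk.1.1.1, hk.1.1.2, hk.1.2, hk.2⟩
  · exact blf 0 2 0 1 (by decide) (by decide) ⟨hk.1.1.1, hk.1.1.2, hk.1.2, hk.2⟩
  · exact blf 0 2 0 2 (by decide) (by decide) ⟨hk.1.1.1, hk.1.1.2, hk.1.2, hk.2⟩
  · exact blf 0 2 1 2 (by decide) (by decide) ⟨hk.1.1.1, hk.1.1.2, hk.1.2, hk.2⟩
  · exact blf 1 2 0 1 (by decide) (by decide) ⟨hk.1.1.1, hk.1.1.2, hk.1.2, hk.2⟩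
  · exact blf 1 2 0 2 (by decide) (by decide) ⟨hk.1.1.1, hk.1.1.2, hk.1.2, hk.2⟩
  · exact blf 1 2 1 2 (by decide) (by decide) ⟨hk.1.1.1, hk.1.1.2, hk.1.2, hk.2⟩

end PoolH51.BO
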