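import Mathlib
import Pool.Agent.H51.BO.Sbo

open Set Matroid

namespace PoolH51.BO

variable {d : ℕ}

lemma Tri.perm1 {a b c : Pt d} (h : Tri a b c) : Tri b c a :=
  ⟨h.2.2.1, h.1.symm, h.2.1.symm, fun l hl => h.2.2.2 l ⟨hl.2.2, hl.1, hl.2.1⟩⟩

lemma Tri.perm2 {a b c : Pt d} (h : Tri a b c) : Tri c a b := h.perm1.perm1

lemma Tri.swap {a b c : Pt d} (h : Tri a b c) : Tri a c b :=
  ⟨h.2.1, h.1, h.2.2.1.symm, fun l hl => h.2.2.2 l ⟨hl.1, hl.2.2, hl.2.1⟩⟩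

lemma fin3_eq : ∀ i j k m : Fin 3, i ≠ j → i ≠ k → j ≠ k → m ≠ i → m = j ∨ m = k := by decide

/-- `u, v` two disjoint bases: good bijection -/
lemma disjoint_good {u v : Fin 3 → Pt d} (huinj : Function.Injective u)
    (hvinj : Function.Injective v) (huv : ∀ i j, u i ≠ v j) (hu : ∀ l, ¬ ∀ k, u k ∈ line l)
    (hv : ∀ l, ¬ ∀ k, v k ∈ line l) :
    ∃ φ : Pt d → Pt d, BijOn φ {u 0, u 1, u 2} {v 0, v 1, v 2} ∧
      ∀ X ⊆ ({u 0, u 1, u 2} : Set (Pt d)), (Md d).IsBase (({u 0, u 1, u 2} \ X) ∪ φ '' X) := by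
  obtain ⟨σ, hσ, hC⟩ := exists_matching huinj hvinj huv hu hv
  have hmem : ∀ k, v k ∈ ({v (σ 0), v (σ 1), v (σ 2)} : Set (Pt d)) := by
    intro k
    obtain ⟨i, rfl⟩ := hσ.2 k
    fin_cases i <;> simp
  have hmem' : ∀ k, v k ∈ ({v 0, v 1, v 2} : Set (Pt d)) := by
    intro k
    fin_cases k <;> simp
  have hset : ({v 0, v 1, v 2} : Set (Pt d)) = {v (σ 0), v (σ 1), v (σ 2)} := by
    apply subset_antisymm
    · rintro x (rfl | rfl | rfl)
      exacts [hmem 0, hmem 1, hmem 2]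
    · rintro x (rfl | rfl | rfl)
      exacts [hmem' _, hmem' _, hmem' _]
  rw [hset]
  have tu : Tri (u 0) (u 1) (u 2) := by
    refine ⟨huinj.ne (by decide), huinj.ne (by decide), huinj.ne (by decide), fun l hl => hu l ?_⟩
    intro k
    fin_cases k
    exacts [hl.1, hl.2.1, hl.2.2]
  have hσv : ∀ l, ¬ (v (σ 0) ∈ line l ∧ v (σ 1) ∈ line l ∧ v (σ 2) ∈ line l) := by
    rintro l ⟨h0, h1, h2⟩
    apply hv l
    intro k
    obtain ⟨i, rfl⟩ := hσ.2 k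
    fin_cases i
    exacts [h0, h1, h2]
  have tv : Tri (v (σ 0)) (v (σ 1)) (v (σ 2)) :=
    ⟨hvinj.ne (hσ.1.ne (by decide)), hvinj.ne (hσ.1.ne (by decide)),
      hvinj.ne (hσ.1.ne (by decide)), hσv⟩
  -- two `u`s and one `v`
  have t1 : ∀ i j k : Fin 3, i ≠ j → i ≠ k → j ≠ k → Tri (v (σ i)) (u j) (u k) := by
    intro i j k hij hik hjk
    refine ⟨(huv _ _).symm, (huv _ _).symm, huinj.ne hjk, fun l hl => hC i (Or.inl ?_)⟩
    refine ⟨l, fun m hm => ?_, hl.1⟩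
    have : m = j ∨ m = k := fin3_eq i j k m hij hik hjk hm
    rcases this with rfl | rfl
    exacts [hl.2.1, hl.2.2]
  have t2 : ∀ i j k : Fin 3, i ≠ j → i ≠ k → j ≠ k → Tri (u i) (v (σ j)) (v (σ k)) := by
    intro i j k hij hik hjk
    refine ⟨huv _ _, huv _ _, hvinj.ne (hσ.1.ne hjk), fun l hl => hC i (Or.inr ?_)⟩
    refine ⟨l, fun m hm => ?_, hl.1⟩
    obtain ⟨n, rfl⟩ := hσ.2 m
    have hn : n ≠ i := fun h => hm (by rw [h])
    have : n = j ∨ n = k := fin3_eq i j k n hij hik hjk hn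
    rcases this with rfl | rfl
    exacts [hl.2.1, hl.2.2]
  apply good_of_enum
  rintro w₀ w₁ w₂ (rfl | rfl) (rfl | rfl) (rfl | rfl)
  · exact tu
  · exact (t1 2 0 1 (by decide) (by decide) (by decide)).perm1
  · exact (t1 1 0 2 (by decide) (by decide) (by decide)).perm1.swap
  · exact t2 0 1 2 (by decide) (by decide) (by decide)
  · exact t1 0 1 2 (by decide) (by decide) (by decide)
  · exact (t2 1 0 2 (by decide) (by decide) (by decide)).perm1.swap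
  · exact (t2 2 0 1 (by decide) (by decide) (by decide)).perm1
  · exact tv

lemma inj3 {a b c : Pt d} (hab : a ≠ b) (hac : a ≠ c) (hbc : b ≠ c) :
    Function.Injective ![a, b, c] := by
  intro i j h
  fin_cases i <;> fin_cases j
  all_goals first
    | rfl
    | exact absurd h hab
    | exact absurd h hac
    | exact absurd h hbc
    | exact absurd h hab.symm
    | exact absurd h hac.symm
    | exact absurd h hbc.symm

lemma md_sbo (hd : 2 ≤ d) : StronglyBaseOrderable (Md d) := by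
  classical
  intro B₁ B₂ hB₁ hB₂
  rw [md_isBase_iff hd] at hB₁ hB₂
  obtain ⟨hi₁, hc₁⟩ := hB₁
  obtain ⟨hi₂, hc₂⟩ := hB₂
  have s1 := ncard_inter_add_ncard_sdiff_eq_ncard B₁ B₂
  have s2 := ncard_inter_add_ncard_sdiff_eq_ncard B₂ B₁
  rw [inter_comm B₂ B₁] at s2
  have e1 : B₁ = (B₁ ∩ B₂) ∪ (B₁ \ B₂) := (inter_union_sdiff B₁ B₂).symm
  have e2 : B₂ = (B₁ ∩ B₂) ∪ (B₂ \ B₁) := by
    rw [inter_comm]; exact (inter_union_sdiff B₂ B₁).symm
  have hcases : (B₁ ∩ B₂).ncard = 0 ∨ (B₁ ∩ B₂).ncard = 1 ∨ (B₁ ∩ B₂).ncard = 2 ∨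
      (B₁ ∩ B₂).ncard = 3 := by omega
  rcases hcases with h | h | h | h
  · -- disjoint bases
    have hdis : B₁ ∩ B₂ = ∅ := by
      rwa [ncard_eq_zero] at h
    obtain ⟨a, b, c, hab, hac, hbc, rfl⟩ := ncard_eq_three.1 hc₁
    obtain ⟨a', b', c', hab', hac', hbc', rfl⟩ := ncard_eq_three.1 hc₂
    have t := tri_of_indep hab hac hbc hi₁
    have t' := tri_of_indep hab' hac' hbc' hi₂
    have hne : ∀ x ∈ ({a, b, c} : Set (Pt d)), ∀ y ∈ ({a', b', c'} : Set (Pt d)), x ≠ y := by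
      rintro x hx y hy rfl
      have : x ∈ ({a, b, c} : Set (Pt d)) ∩ {a', b', c'} := ⟨hx, hy⟩
      rw [hdis] at this
      exact this
    refine disjoint_good (u := ![a, b, c]) (v := ![a', b', c']) (inj3 hab hac hbc)
      (inj3 hab' hac' hbc') ?_ ?_ ?_
    · intro i j
      apply hne
      · fin_cases i <;> simp
      · fin_cases j <;> simp
    · intro l hl
      exact t.2.2.2 l ⟨hl 0, hl 1, hl 2⟩
    · intro l hl
      exact t'.2.2.2 l ⟨hl 0, hl 1, hl 2⟩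
  · -- one common element
    obtain ⟨z, hz⟩ := ncard_eq_one.1 h
    obtain ⟨u₁, u₂, hu, hU⟩ := ncard_eq_two.1 (by omega : (B₁ \ B₂).ncard = 2)
    obtain ⟨v₁, v₂, hv, hV⟩ := ncard_eq_two.1 (by omega : (B₂ \ B₁).ncard = 2)
    rw [hz, hU] at e1
    rw [hz, hV] at e2
    have hz1 : z ∈ B₁ ∩ B₂ := by rw [hz]; rfl
    have hu1 : u₁ ∈ B₁ \ B₂ := by rw [hU]; simp
    have hu2 : u₂ ∈ B₁ \ B₂ := by rw [hU]; simp
    have hv1 : v₁ ∈ B₂ \ B₁ := by rw [hV]; simp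
    have hv2 : v₂ ∈ B₂ \ B₁ := by rw [hV]; simp
    have n1 : z ≠ u₁ := fun h => hu1.2 (h ▸ hz1.2)
    have n2 : z ≠ u₂ := fun h => hu2.2 (h ▸ hz1.2)
    have n3 : z ≠ v₁ := fun h => hv1.2 (h ▸ hz1.1)
    have n4 : z ≠ v₂ := fun h => hv2.2 (h ▸ hz1.1)
    have n5 : u₁ ≠ v₁ := fun h => hu1.2 (h ▸ hv1.1)
    have n6 : u₁ ≠ v₂ := fun h => hu1.2 (h ▸ hv2.1)
    have n7 : u₂ ≠ v₁ := fun h => hu2.2 (h ▸ hv1.1)
    have n8 : u₂ ≠ v₂ := fun h => hu2.2 (h ▸ hv2.1)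
    have e1' : B₁ = {z, u₁, u₂} := by rw [e1, singleton_union]
    have e2' : B₂ = {z, v₁, v₂} := by rw [e2, singleton_union]
    have t : Tri z u₁ u₂ := tri_of_indep n1 n2 hu (e1' ▸ hi₁)
    have t' : Tri z v₁ v₂ := tri_of_indep n3 n4 hv (e2' ▸ hi₂)
    rw [e1', e2']
    by_cases hA : ∃ l, z ∈ line l ∧ u₁ ∈ line l ∧ v₂ ∈ line l
    · obtain ⟨l, l1, l2, l3⟩ := hA
      have c1 : Tri z u₁ v₁ := by
        refine ⟨n1, n3, n5, fun m hm => ?_⟩
        have := line_unique n1 l1 l2 hm.1 hm.2.1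
        subst this
        exact t'.2.2.2 l ⟨l1, hm.2.2, l3⟩
      have c2 : Tri z v₂ u₂ := by
        refine ⟨n4, n2, n8.symm, fun m hm => ?_⟩
        have := line_unique n4 l1 l3 hm.1 hm.2.1
        subst this
        exact t.2.2.2 l ⟨l1, l2, hm.2.2⟩
      have hset : ({z, v₁, v₂} : Set (Pt d)) = {z, v₂, v₁} := by
        rw [pair_comm]
      rw [hset]
      apply good_of_enum
      rintro w₀ w₁ w₂ hw₀ (rfl | rfl) (rfl | rfl)
      · rw [or_self_iff.1 hw₀]; exact t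
      · rw [or_self_iff.1 hw₀]; exact c1
      · rw [or_self_iff.1 hw₀]; exact c2
      · rw [or_self_iff.1 hw₀]; exact t'.swap
    · by_cases hB : ∃ l, z ∈ line l ∧ v₁ ∈ line l ∧ u₂ ∈ line l
      · obtain ⟨l, l1, l2, l3⟩ := hB
        have c1 : Tri z u₁ v₁ := by
          refine ⟨n1, n3, n5, fun m hm => ?_⟩
          have := line_unique n3 l1 l2 hm.1 hm.2.2
          subst this
          exact t.2.2.2 l ⟨l1, hm.2.1, l3⟩
        have c2 : Tri z v₂ u₂ := by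
          refine ⟨n4, n2, n8.symm, fun m hm => ?_⟩
          have := line_unique n2 l1 l3 hm.1 hm.2.2
          subst this
          exact t'.2.2.2 l ⟨l1, l2, hm.2.1⟩
        have hset : ({z, v₁, v₂} : Set (Pt d)) = {z, v₂, v₁} := by
          rw [pair_comm]
        rw [hset]
        apply good_of_enum
        rintro w₀ w₁ w₂ hw₀ (rfl | rfl) (rfl | rfl)
        · rw [or_self_iff.1 hw₀]; exact t
        · rw [or_self_iff.1 hw₀]; exact c1
        · rw [or_self_iff.1 hw₀]; exact c2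
        · rw [or_self_iff.1 hw₀]; exact t'.swap
      · push Not at hA hB
        apply good_of_enum
        rintro w₀ w₁ w₂ hw₀ (rfl | rfl) (rfl | rfl)
        · rw [or_self_iff.1 hw₀]; exact t
        · rw [or_self_iff.1 hw₀]
          exact ⟨n1, n4, n6, fun l hl => hA l hl.1 hl.2.1 hl.2.2⟩
        · rw [or_self_iff.1 hw₀]
          exact ⟨n3, n2, n7.symm, fun l hl => hB l hl.1 hl.2.1 hl.2.2⟩
        · rw [or_self_iff.1 hw₀]; exact t'
  · -- two common elements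
    obtain ⟨z, w, hzw, hz⟩ := ncard_eq_two.1 h
    obtain ⟨u, hU⟩ := ncard_eq_one.1 (by omega : (B₁ \ B₂).ncard = 1)
    obtain ⟨v, hV⟩ := ncard_eq_one.1 (by omega : (B₂ \ B₁).ncard = 1)
    rw [hz, hU] at e1
    rw [hz, hV] at e2
    have hz1 : z ∈ B₁ ∩ B₂ := by rw [hz]; simp
    have hw1 : w ∈ B₁ ∩ B₂ := by rw [hz]; simp
    have hu1 : u ∈ B₁ \ B₂ := by rw [hU]; simp
    have hv1 : v ∈ B₂ \ B₁ := by rw [hV]; simp
    have e1' : B₁ = {z, w, u} := by rw [e1]; ext; simp; tauto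
    have e2' : B₂ = {z, w, v} := by rw [e2]; ext; simp; tauto
    have t : Tri z w u := tri_of_indep hzw (fun h => hu1.2 (h ▸ hz1.2))
      (fun h => hu1.2 (h ▸ hw1.2)) (e1' ▸ hi₁)
    have t' : Tri z w v := tri_of_indep hzw (fun h => hv1.2 (h ▸ hz1.1))
      (fun h => hv1.2 (h ▸ hw1.1)) (e2' ▸ hi₂)
    rw [e1', e2']
    apply good_of_enum
    rintro w₀ w₁ w₂ hw₀ hw₁ (rfl | rfl)
    · rw [or_self_iff.1 hw₀, or_self_iff.1 hw₁]; exact t
    · rw [or_self_iff.1 hw₀, or_self_iff.1 hw₁]; exact t'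
  · -- equal bases
    have e3 : B₁ ∩ B₂ = B₁ := eq_of_subset_of_ncard_le inter_subset_left (by omega)
    have e4 : B₁ ∩ B₂ = B₂ := eq_of_subset_of_ncard_le inter_subset_right (by omega)
    have e5 : B₁ = B₂ := e3.symm.trans e4
    subst e5
    obtain ⟨a, b, c, hab, hac, hbc, rfl⟩ := ncard_eq_three.1 hc₁
    apply good_of_enum
    intro w₀ w₁ w₂ hw₀ hw₁ hw₂
    rw [or_self_iff.1 hw₀, or_self_iff.1 hw₁, or_self_iff.1 hw₂]
    exact tri_of_indep hab hac hbc hi₁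

lemma StronglyBaseOrderable.baseOrderable {α : Type} {M : Matroid α}
    (h : StronglyBaseOrderable M) : BaseOrderable M := by
  intro B₁ B₂ h1 h2
  obtain ⟨φ, h3, h4⟩ := h B₁ B₂ h1 h2
  exact ⟨φ, h3, fun X hX _ => h4 X hX⟩

end PoolH51.BO
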